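import Mathlib

/-! The group of affine maps `x ↦ 2^n x + c` of `ℚ₂` acting on the countable set of balls. -/

namespace Pool.Agent.H686R3.BallAction

open Equiv

/-- the field of 2-adic numbers -/
abbrev K : Type := ℚ_[2]

/-- the 2-adic integers as an additive subgroup -/
def O : AddSubgroup K where
  carrier := {x | ‖x‖ ≤ 1}
  add_mem' := by
    intro a b ha hb
    exact (Padic.nonarchimedean a b).trans (max_le ha hb)
  zero_mem' := by simp
  neg_mem' := by
    intro a ha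
    simpa using ha

theorem mem_O {x : K} : x ∈ O ↔ ‖x‖ ≤ 1 := Iff.rfl

/-- the Prüfer group `ℚ₂/ℤ₂` -/
abbrev Q : Type := K ⧸ O

/-- the set of balls: `(n, u)` stands for the ball `2^n (u + ℤ₂)` -/
abbrev Y : Type := ℤ × Q

theorem exists_int_near (z : K) (hz : ‖z‖ ≤ 1) (δ : ℝ) (hδ : 0 < δ) :
    ∃ k : ℤ, ‖z - k‖ < δ := by
  let z' : ℤ_[2] := ⟨z, hz⟩
  obtain ⟨k, hk⟩ := (PadicInt.denseRange_intCast (p := 2)).exists_dist_lt z' hδ
  refine ⟨k, ?_⟩
  rw [dist_eq_norm, PadicInt.norm_def] at hk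
  have e : ((z' - (k : ℤ_[2]) : ℤ_[2]) : ℚ_[2]) = z - k := by
    rw [PadicInt.coe_sub, PadicInt.coe_intCast]
  rwa [e] at hk

theorem norm_two_zpow (n : ℤ) : ‖(2 : K) ^ n‖ = (2 : ℝ) ^ (-n) := by
  have := Padic.norm_p_zpow (p := 2) n
  simpa using this

/-- `ℤ[1/2]·c` is dense in `ℚ₂` -/
theorem exists_near (c x : K) (hc : c ≠ 0) (ε : ℝ) (hε : 0 < ε) :
    ∃ (k : ℤ) (j : ℕ), ‖x - k * ((2 : K) ^ (-(j : ℤ)) * c)‖ ≤ ε := by
  obtain ⟨j, hj⟩ : ∃ j : ℕ, ‖(2 : K) ^ (j : ℤ) * (x / c)‖ ≤ 1 := by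
    obtain ⟨j, hj⟩ := pow_unbounded_of_one_lt ‖x / c‖ (one_lt_two : (1 : ℝ) < 2)
    refine ⟨j, ?_⟩
    rw [norm_mul, norm_two_zpow, zpow_neg, zpow_natCast, inv_mul_le_iff₀ (by positivity), mul_one]
    exact hj.le
  have hcn : 0 < ‖c‖ := norm_pos_iff.mpr hc
  obtain ⟨k, hk⟩ := exists_int_near _ hj (ε / (2 ^ j * ‖c‖)) (by positivity)
  refine ⟨k, j, ?_⟩
  have h2 : (2 : K) ^ (j : ℤ) ≠ 0 := zpow_ne_zero _ two_ne_zero
  have e : x - k * ((2 : K) ^ (-(j : ℤ)) * c) =
      ((2 : K) ^ (-(j : ℤ)) * c) * ((2 : K) ^ (j : ℤ) * (x / c) - k) := by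
    rw [zpow_neg]
    field_simp
  rw [e, norm_mul, norm_mul, norm_two_zpow, neg_neg, zpow_natCast]
  have h3 : 0 < 2 ^ j * ‖c‖ := by positivity
  rw [lt_div_iff₀ h3] at hk
  linarith

instance : Countable Q := by
  have : Function.Surjective (fun q : ℚ => (QuotientAddGroup.mk (q : K) : Q)) := by
    intro u
    obtain ⟨x, rfl⟩ := QuotientAddGroup.mk_surjective u
    obtain ⟨k, j, h⟩ := exists_near 1 x one_ne_zero 1 one_pos
    refine ⟨k * (2 : ℚ) ^ (-(j : ℤ)), ?_⟩
    rw [QuotientAddGroup.eq, mem_O]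
    have : -(((k * (2 : ℚ) ^ (-(j : ℤ)) : ℚ)) : K) + x = x - k * ((2 : K) ^ (-(j : ℤ)) * 1) := by
      push_cast
      ring
    rw [this]
    exact h
  exact this.countable

instance : Infinite Y := Infinite.of_injective (fun n : ℤ => ((n, 0) : Y)) (by
  intro a b h
  exact (Prod.mk.inj h).1)

/-- translation by `x` -/
noncomputable def T (x : K) : Perm Y where
  toFun y := (y.1, y.2 + QuotientAddGroup.mk ((2 : K) ^ (-y.1) * x))
  invFun y := (y.1, y.2 - QuotientAddGroup.mk ((2 : K) ^ (-y.1) * x))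
  left_inv y := by simp
  right_inv y := by simp

/-- dilation by `2` -/
def σ : Perm Y where
  toFun y := (y.1 + 1, y.2)
  invFun y := (y.1 - 1, y.2)
  left_inv y := by simp
  right_inv y := by simp

theorem T_apply (x : K) (n : ℤ) (u : Q) :
    T x (n, u) = (n, u + QuotientAddGroup.mk ((2 : K) ^ (-n) * x)) := rfl

theorem σ_apply (n : ℤ) (u : Q) : σ (n, u) = (n + 1, u) := rfl

theorem T_add (x y : K) : T (x + y) = T x * T y := by
  ext1 ⟨n, u⟩
  rw [Perm.mul_apply, T_apply, T_apply, T_apply, mul_add, QuotientAddGroup.mk_add]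
  congr 1
  rw [add_assoc, add_comm (QuotientAddGroup.mk ((2 : K) ^ (-n) * y) : Q)]

theorem T_zero : T 0 = 1 := by
  ext1 ⟨n, u⟩
  rw [T_apply]
  simp

theorem T_neg (x : K) : T (-x) = (T x)⁻¹ := by
  rw [eq_inv_iff_mul_eq_one, ← T_add, neg_add_cancel, T_zero]

theorem T_zsmul (k : ℤ) (x : K) : T (k * x) = (T x) ^ k := by
  induction k using Int.induction_on with
  | zero => simp [T_zero]
  | succ i ih =>
    rw [zpow_add_one, ← ih, ← T_add]
    congr 1
    push_cast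
    ring
  | pred i ih =>
    rw [zpow_sub_one, ← ih, ← T_neg, ← T_add]
    congr 1
    push_cast
    ring

theorem σ_mul_T (x : K) : σ * T x = T (2 * x) * σ := by
  ext1 ⟨n, u⟩
  rw [Perm.mul_apply, Perm.mul_apply, T_apply, σ_apply, σ_apply, T_apply]
  congr 3
  rw [← mul_assoc]
  congr 1
  rw [neg_add, zpow_add₀ two_ne_zero, zpow_neg_one, mul_assoc, inv_mul_cancel₀ two_ne_zero,
    mul_one]

/-- dilation by `2` with centre `a` -/
noncomputable def g (a : K) : Perm Y := T a * σ * T (-a)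

theorem g_mul_inv (a b : K) : g a * (g b)⁻¹ = T (b - a) := by
  have h : σ * T (-a) * T b = T (2 * (-a + b)) * σ := by
    rw [mul_assoc, ← T_add, σ_mul_T]
  calc g a * (g b)⁻¹ = T a * (σ * T (-a) * T b) * σ⁻¹ * T (-b) := by
        unfold g
        rw [T_neg b]
        group
    _ = T a * T (2 * (-a + b)) * T (-b) := by rw [h]; group
    _ = T (b - a) := by
        rw [← T_add, ← T_add]
        congr 1
        ring

theorem T_commute (x y : K) : T x * T y = T y * T x := by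
  rw [← T_add, ← T_add, add_comm]

theorem g_mul_T (a c : K) : g a * T c = T (2 * c) * g a := by
  unfold g
  calc T a * σ * T (-a) * T c = T a * (σ * T c) * T (-a) := by
        rw [mul_assoc, T_commute (-a) c]; group
    _ = T a * (T (2 * c) * σ) * T (-a) := by rw [σ_mul_T]
    _ = T (2 * c) * (T a * σ * T (-a)) := by
        rw [← mul_assoc (T a), T_commute a (2 * c)]; group

theorem g_pow_mul_T (a c : K) (j : ℕ) : (g a) ^ j * T c = T (2 ^ j * c) * (g a) ^ j := by
  induction j with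
  | zero => simp
  | succ j ih =>
    rw [pow_succ', mul_assoc, ih, ← mul_assoc, g_mul_T, mul_assoc]
    congr 2
    ring

theorem T_conj (a c : K) (j : ℕ) :
    T ((2 : K) ^ (-(j : ℤ)) * c) = ((g a)⁻¹) ^ j * T c * (g a) ^ j := by
  have h := g_pow_mul_T a ((2 : K) ^ (-(j : ℤ)) * c) j
  have h2 : (2 : K) ^ j * ((2 : K) ^ (-(j : ℤ)) * c) = c := by
    rw [zpow_neg, zpow_natCast, ← mul_assoc, mul_inv_cancel₀ (pow_ne_zero _ two_ne_zero), one_mul]
  rw [h2] at h
  rw [mul_assoc, ← h, inv_pow, inv_mul_cancel_left]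

theorem T_eq_on (x x' : K) (N : ℤ) (h : ‖x - x'‖ ≤ (2 : ℝ) ^ (-N)) (y : Y) (hy : y.1 ≤ N) :
    T x' y = T x y := by
  obtain ⟨n, u⟩ := y
  rw [T_apply, T_apply]
  congr 2
  rw [QuotientAddGroup.eq, mem_O]
  have : -((2 : K) ^ (-n) * x') + (2 : K) ^ (-n) * x = (2 : K) ^ (-n) * (x - x') := by ring
  rw [this, norm_mul, norm_two_zpow, neg_neg]
  have h1 : (2 : ℝ) ^ n * ‖x - x'‖ ≤ (2 : ℝ) ^ n * (2 : ℝ) ^ (-N) :=
    mul_le_mul_of_nonneg_left h (by positivity)
  refine h1.trans ?_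
  rw [← zpow_add₀ two_ne_zero]
  exact zpow_le_one_of_nonpos₀ one_le_two (by simp only at hy; omega)

/-- The key fact: a locally closed monoid of permutations which contains the dilations with two
different centres and their inverses contains all translations and `σ`. -/
theorem key (S : Submonoid (Perm Y))
    (hcl : ∀ f : Perm Y, (∀ A : Finset Y, ∃ s ∈ S, ∀ y ∈ A, s y = f y) → f ∈ S)
    (a b : K) (hab : a ≠ b) (h1 : g a ∈ S) (h2 : (g a)⁻¹ ∈ S) (h3 : g b ∈ S)
    (h4 : (g b)⁻¹ ∈ S) : (∀ x : K, T x ∈ S) ∧ σ ∈ S ∧ σ⁻¹ ∈ S := by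
  have hc : b - a ≠ 0 := sub_ne_zero.mpr hab.symm
  have hT : T (b - a) ∈ S := g_mul_inv a b ▸ S.mul_mem h1 h4
  have hT' : (T (b - a))⁻¹ ∈ S := by
    rw [← T_neg, neg_sub, ← g_mul_inv b a]
    exact S.mul_mem h3 h2
  have hTj : ∀ j : ℕ, T ((2 : K) ^ (-(j : ℤ)) * (b - a)) ∈ S := by
    intro j
    rw [T_conj a]
    exact S.mul_mem (S.mul_mem (S.pow_mem h2 j) hT) (S.pow_mem h1 j)
  have hTj' : ∀ j : ℕ, (T ((2 : K) ^ (-(j : ℤ)) * (b - a)))⁻¹ ∈ S := by
    intro j
    rw [T_conj a, mul_inv_rev, mul_inv_rev, inv_pow, inv_inv, ← inv_pow, ← mul_assoc]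
    exact S.mul_mem (S.mul_mem (S.pow_mem h2 j) hT') (S.pow_mem h1 j)
  have hTk : ∀ (k : ℤ) (j : ℕ), T (k * ((2 : K) ^ (-(j : ℤ)) * (b - a))) ∈ S := by
    intro k j
    rw [T_zsmul]
    obtain ⟨m, rfl | rfl⟩ := k.eq_nat_or_neg
    · rw [zpow_natCast]; exact S.pow_mem (hTj j) m
    · rw [zpow_neg, zpow_natCast, ← inv_pow]; exact S.pow_mem (hTj' j) m
  have hall : ∀ x : K, T x ∈ S := by
    intro x
    apply hcl
    intro A
    obtain ⟨N, hN⟩ : ∃ N : ℤ, ∀ y ∈ A, y.1 ≤ N := by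
      obtain ⟨N, hN⟩ := (A.image Prod.fst).bddAbove
      exact ⟨N, fun y hy => hN (Finset.mem_coe.mpr (Finset.mem_image_of_mem _ hy))⟩
    obtain ⟨k, j, h⟩ := exists_near (b - a) x hc ((2 : ℝ) ^ (-N)) (by positivity)
    exact ⟨_, hTk k j, fun y hy => T_eq_on x _ N h y (hN y hy)⟩
  refine ⟨hall, ?_, ?_⟩
  · have : σ = T (-a) * g a * T a := by
      unfold g
      rw [T_neg]
      group
    rw [this]
    exact S.mul_mem (S.mul_mem (hall _) h1) (hall _)
  · have : σ⁻¹ = T (-a) * (g a)⁻¹ * T a := by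
      unfold g
      rw [T_neg]
      group
    rw [this]
    exact S.mul_mem (S.mul_mem (hall _) h2) (hall _)

theorem g_apply_fst (a : K) (y : Y) : (g a y).1 = y.1 + 1 := rfl

theorem g_pow_apply_fst (a : K) (n : ℕ) (y : Y) : (((g a) ^ n) y).1 = y.1 + n := by
  induction n with
  | zero => simp
  | succ n ih =>
    rw [pow_succ', Perm.mul_apply, g_apply_fst, ih]
    push_cast
    ring

theorem g_zpow_apply_fst (a : K) (n : ℤ) (y : Y) : (((g a) ^ n) y).1 = y.1 + n := by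
  obtain ⟨m, rfl | rfl⟩ := n.eq_nat_or_neg
  · rw [zpow_natCast, g_pow_apply_fst]
  · have h := g_pow_apply_fst a m (((g a) ^ (-(m : ℤ))) y)
    rw [← Perm.mul_apply, ← zpow_natCast, ← zpow_add, add_neg_cancel, zpow_zero,
      Perm.one_apply] at h
    omega

theorem T_injective : Function.Injective T := by
  intro x y hxy
  by_contra hne
  have hpos : 0 < ‖x - y‖ := norm_pos_iff.mpr (sub_ne_zero.mpr hne)
  obtain ⟨N, hN⟩ := pow_unbounded_of_one_lt (‖x - y‖⁻¹) (one_lt_two : (1 : ℝ) < 2)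
  have h := congrFun (congrArg (fun f : Perm Y => (f : Y → Y)) hxy) ((N : ℤ), 0)
  simp only [T_apply] at h
  have h2 := (Prod.mk.inj h).2
  rw [zero_add, zero_add, QuotientAddGroup.eq, mem_O] at h2
  have e : -((2 : K) ^ (-(N : ℤ)) * x) + (2 : K) ^ (-(N : ℤ)) * y =
      (2 : K) ^ (-(N : ℤ)) * (-(x - y)) := by ring
  rw [e, norm_mul, norm_two_zpow, neg_neg, norm_neg, zpow_natCast] at h2
  have h3 : 1 < 2 ^ N * ‖x - y‖ := by
    have := mul_lt_mul_of_pos_right hN hpos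
    rwa [inv_mul_cancel₀ hpos.ne'] at this
  linarith

theorem g_pow_eq (a : K) (n : ℕ) : (g a) ^ n = T (a - 2 ^ n * a) * σ ^ n := by
  induction n with
  | zero => simp [T_zero]
  | succ n ih =>
    have h : ∀ (m : ℕ) (x : K), σ ^ m * T x = T (2 ^ m * x) * σ ^ m := by
      intro m x
      induction m with
      | zero => simp
      | succ m ih' =>
        rw [pow_succ', mul_assoc, ih', ← mul_assoc, σ_mul_T, mul_assoc]
        congr 2
        ring
    rw [pow_succ, ih]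
    unfold g
    calc T (a - 2 ^ n * a) * σ ^ n * (T a * σ * T (-a))
        = T (a - 2 ^ n * a) * (σ ^ n * T a) * σ * T (-a) := by group
      _ = T (a - 2 ^ n * a) * (T (2 ^ n * a) * σ ^ n) * σ * T (-a) := by rw [h]
      _ = T (a - 2 ^ n * a) * T (2 ^ n * a) * (σ ^ (n + 1) * T (-a)) := by
          rw [pow_succ]; group
      _ = T (a - 2 ^ n * a) * T (2 ^ n * a) * (T (2 ^ (n + 1) * (-a)) * σ ^ (n + 1)) := by rw [h]
      _ = T (a - 2 ^ (n + 1) * a) * σ ^ (n + 1) := by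
          rw [← mul_assoc, ← T_add, ← T_add]
          congr 2
          ring

/-- powers of dilations with different centres are different -/
theorem g_zpow_ne (a b : K) (hab : a ≠ b) (n m : ℤ) (h : (g a) ^ n = (g b) ^ m) : n = 0 := by
  have hnm : n = m := by
    have := congrArg (fun f : Perm Y => (f (0, 0)).1) h
    simp only [g_zpow_apply_fst] at this
    omega
  subst hnm
  by_contra hn
  obtain ⟨k, rfl | rfl⟩ := n.eq_nat_or_neg
  · rw [zpow_natCast, zpow_natCast, g_pow_eq, g_pow_eq] at h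
    have h2 := T_injective (mul_right_cancel h)
    have hk : k ≠ 0 := by simpa using hn
    have h3 : (1 - (2 : K) ^ k) * (a - b) = 0 := by linear_combination h2
    rcases mul_eq_zero.mp h3 with h4 | h4
    · have h5 : (2 : K) ^ k = 1 := by linear_combination -h4
      have h6 : ((2 ^ k : ℕ) : K) = ((1 : ℕ) : K) := by push_cast; exact h5
      have h7 : 2 ^ k = 1 := by exact_mod_cast h6
      exact hk (by simpa using h7)
    · exact hab (sub_eq_zero.mp h4)
  · rw [zpow_neg, zpow_neg, inv_inj, zpow_natCast, zpow_natCast, g_pow_eq, g_pow_eq] at h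
    have h2 := T_injective (mul_right_cancel h)
    have hk : k ≠ 0 := by simpa using hn
    have h3 : (1 - (2 : K) ^ k) * (a - b) = 0 := by linear_combination h2
    rcases mul_eq_zero.mp h3 with h4 | h4
    · have h5 : (2 : K) ^ k = 1 := by linear_combination -h4
      have h6 : ((2 ^ k : ℕ) : K) = ((1 : ℕ) : K) := by push_cast; exact h5
      have h7 : 2 ^ k = 1 := by exact_mod_cast h6
      exact hk (by simpa using h7)
    · exact hab (sub_eq_zero.mp h4)

end Pool.Agent.H686R3.BallAction
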