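import Mathlib

/-! Definitions: maximal metrics, affine isometric actions, amenability. -/

namespace Pool.Agent.H686R3.Coarse

open MeasureTheory

/-- `d` is a compatible left-invariant metric on the topological group `G`: a metric which induces
the topology of `G` and satisfies `d (h g) (h f) = d g f`. -/
structure IsCompatibleLeftInvariantMetric {G : Type*} [Group G] [TopologicalSpace G]
    (d : G → G → ℝ) : Prop where
  eq_zero_iff : ∀ x y, d x y = 0 ↔ x = y
  symm : ∀ x y, d x y = d y x
  triangle : ∀ x y z, d x z ≤ d x y + d y z
  left_invariant : ∀ h g f, d (h * g) (h * f) = d g f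
  isOpen_iff : ∀ s : Set G, IsOpen s ↔ ∀ x ∈ s, ∃ ε > 0, ∀ y, d x y < ε → y ∈ s

/-- `d` is a maximal metric on `G`: a compatible left-invariant metric such that every compatible
left-invariant metric `∂` satisfies `∂ ≤ K d + K` for some constant `K`. -/
def IsMaximalMetric {G : Type*} [Group G] [TopologicalSpace G] (d : G → G → ℝ) : Prop :=
  IsCompatibleLeftInvariantMetric d ∧
    ∀ p : G → G → ℝ, IsCompatibleLeftInvariantMetric p → ∃ K : ℝ, ∀ x y, p x y ≤ K * d x y + K

/-- A continuous affine isometric action `α(g) ξ = π(g) ξ + b(g)` of `G` on a real Hilbert space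
`H`: `π` is an orthogonal representation, `b` a cocycle, and `(g, ξ) ↦ π(g) ξ + b(g)` is
continuous. -/
structure AffineIsometricAction (G : Type*) [Group G] [TopologicalSpace G] (H : Type*)
    [NormedAddCommGroup H] [InnerProductSpace ℝ H] where
  π : G →* (H ≃ₗᵢ[ℝ] H)
  b : G → H
  cocycle : ∀ g h : G, b (g * h) = π g (b h) + b g
  continuous_action : Continuous fun p : G × H => π p.1 p.2 + b p.1

/-- A topological group `G` is amenable if every continuous action of `G` on a nonempty compact
Hausdorff space admits an invariant Borel probability measure. -/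
def IsAmenable (G : Type) [Group G] [TopologicalSpace G] : Prop :=
  ∀ (X : Type) [TopologicalSpace X] [CompactSpace X] [T2Space X] [Nonempty X]
    [MeasurableSpace X] [BorelSpace X] [MulAction G X] [ContinuousSMul G X],
    ∃ μ : Measure X, IsProbabilityMeasure μ ∧ ∀ g : G, μ.map (fun x => g • x) = μ

end Pool.Agent.H686R3.Coarse
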