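import Mathlib

/-! A lattice embedding of `Sub(E³)` into `Sub_D(V)` forces `E` and `D` to have the same
characteristic. -/

namespace Pool.Agent.H686R3

open Submodule

section lines
variable {E : Type*} [Field E]

/-- the line through `(a,b,c)` -/
def line (a b c : E) : Submodule E (Fin 3 → E) := span E {![a, b, c]}

theorem mem_line {a b c : E} {w : Fin 3 → E} :
    w ∈ line a b c ↔ ∃ t : E, w 0 = t * a ∧ w 1 = t * b ∧ w 2 = t * c := by
  unfold line
  rw [mem_span_singleton]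
  constructor
  · rintro ⟨t, rfl⟩
    exact ⟨t, by simp, by simp, by simp⟩
  · rintro ⟨t, h0, h1, h2⟩
    refine ⟨t, ?_⟩
    funext i
    fin_cases i
    · simp [h0]
    · simp [h1]
    · simp [h2]

theorem step_le (k : E) :
    (((line 1 k 0 ⊔ line 0 1 1) ⊓ (line 1 0 1 ⊔ line 0 1 0)) ⊔ line 0 0 1) ⊓
      (line 1 0 0 ⊔ line 0 1 0) ≤ line 1 (k + 1) (0 : E) := by
  intro w hw
  obtain ⟨hw1, hw2⟩ := hw
  obtain ⟨a, ha, b, hb, rfl⟩ := mem_sup.mp hw1
  obtain ⟨ha1, ha2⟩ := ha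
  obtain ⟨a1, h1, a2, h2, h12⟩ := mem_sup.mp ha1
  obtain ⟨a3, h3, a4, h4, h34⟩ := mem_sup.mp ha2
  obtain ⟨c1, hc1, c2, hc2, hc⟩ := mem_sup.mp hw2
  rw [mem_line] at *
  obtain ⟨t1, h10, h11, h12'⟩ := h1
  obtain ⟨t2, h20, h21, h22⟩ := h2
  obtain ⟨t3, h30, h31, h32⟩ := h3
  obtain ⟨t4, h40, h41, h42⟩ := h4
  obtain ⟨t5, hb0, hb1, hb2⟩ := hb
  obtain ⟨t6, hc10, hc11, hc12⟩ := hc1
  obtain ⟨t7, hc20, hc21, hc22⟩ := hc2
  have e0 := congrFun h12 0
  have e1 := congrFun h12 1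
  have e2 := congrFun h12 2
  have f0 := congrFun h34 0
  have f1 := congrFun h34 1
  have f2 := congrFun h34 2
  have g2 := congrFun hc 2
  simp only [Pi.add_apply] at e0 e1 e2 f0 f1 f2 g2 ⊢
  refine ⟨t1, ?_, ?_, ?_⟩
  · rw [hb0, ← e0, h10, h20]; ring
  · have c : t3 = t1 := by linear_combination f0 - e0 - h30 - h40 + h10 + h20
    have d : t2 = t3 := by linear_combination e2 - f2 - h12' - h22 + h32 + h42
    have : t2 = t1 := d.trans c
    rw [hb1, ← e1, h11, h21, this]; ring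
  · rw [← g2, hc12, hc22]; ring

theorem disj12 : line 1 0 0 ⊓ line (0 : E) 1 0 = ⊥ := by
  rw [eq_bot_iff]
  rintro w ⟨h1, h2⟩
  rw [SetLike.mem_coe, mem_line] at h1 h2
  obtain ⟨t, ht0, ht1, ht2⟩ := h1
  obtain ⟨s, hs0, hs1, hs2⟩ := h2
  rw [mem_bot]
  funext i
  fin_cases i
  · simpa using hs0
  · simpa using ht1
  · simpa using ht2

theorem disj23 : line 0 1 1 ⊓ line (0 : E) 0 1 = ⊥ := by
  rw [eq_bot_iff]
  rintro w ⟨h1, h2⟩
  rw [SetLike.mem_coe, mem_line] at h1 h2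
  obtain ⟨t, ht0, ht1, ht2⟩ := h1
  obtain ⟨s, hs0, hs1, hs2⟩ := h2
  have : t = 0 := by
    rw [hs1] at ht1; simpa using ht1.symm
  rw [mem_bot]
  funext i
  fin_cases i
  · simpa using hs0
  · simpa using hs1
  · simpa [this] using ht2

theorem disj13 : line 1 0 1 ⊓ line (1 : E) 0 0 = ⊥ := by
  rw [eq_bot_iff]
  rintro w ⟨h1, h2⟩
  rw [SetLike.mem_coe, mem_line] at h1 h2
  obtain ⟨t, ht0, ht1, ht2⟩ := h1
  obtain ⟨s, hs0, hs1, hs2⟩ := h2
  have : t = 0 := by
    rw [hs2] at ht2; simpa using ht2.symm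
  rw [mem_bot]
  funext i
  fin_cases i
  · simpa [this] using ht0
  · simpa using hs1
  · simpa using hs2

theorem disjU {k : E} (hk : k ≠ 0) : line 1 k 0 ⊓ line (1 : E) 0 0 = ⊥ := by
  rw [eq_bot_iff]
  rintro w ⟨h1, h2⟩
  rw [SetLike.mem_coe, mem_line] at h1 h2
  obtain ⟨t, ht0, ht1, ht2⟩ := h1
  obtain ⟨s, hs0, hs1, hs2⟩ := h2
  have : t = 0 := by
    rw [hs1] at ht1
    have : t * k = 0 := by simpa using ht1.symm
    exact (mul_eq_zero.mp this).resolve_right hk
  rw [mem_bot]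
  funext i
  fin_cases i
  · simpa [this] using ht0
  · simpa using hs1
  · simpa using hs2

theorem le13 : line (1 : E) 0 0 ≤ line 1 0 1 ⊔ line 0 0 1 := by
  intro w hw
  rw [mem_line] at hw
  obtain ⟨t, h0, h1, h2⟩ := hw
  rw [mem_sup]
  refine ⟨![t, 0, t], ?_, ![0, 0, -t], ?_, ?_⟩
  · rw [mem_line]; exact ⟨t, by simp, by simp, by simp⟩
  · rw [mem_line]; exact ⟨-t, by simp, by simp, by simp⟩
  · funext i
    fin_cases i
    · simp [h0]
    · simp [h1]
    · simp [h2]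

theorem le23 : line (0 : E) 0 1 ≤ line 0 1 1 ⊔ line 0 1 0 := by
  intro w hw
  rw [mem_line] at hw
  obtain ⟨t, h0, h1, h2⟩ := hw
  rw [mem_sup]
  refine ⟨![0, t, t], ?_, ![0, -t, 0], ?_, ?_⟩
  · rw [mem_line]; exact ⟨t, by simp, by simp, by simp⟩
  · rw [mem_line]; exact ⟨-t, by simp, by simp, by simp⟩
  · funext i
    fin_cases i
    · simp [h0]
    · simp [h1]
    · simp [h2]

theorem line_ne_bot : line (1 : E) 0 0 ≠ ⊥ := by
  intro h
  have : (![1, 0, 0] : Fin 3 → E) ∈ line (1 : E) 0 0 := by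
    rw [mem_line]; exact ⟨1, by simp, by simp, by simp⟩
  rw [h, mem_bot] at this
  have := congrFun this 0
  simp at this

end lines

/-- A lattice embedding `Sub(E³) → Sub_D(V)` forces `E` and `D` to have the same
characteristic. -/
theorem natCast_eq_zero_iff_of_embedding {E : Type*} [Field E] {D : Type*} [DivisionRing D]
    {V : Type*} [AddCommGroup V] [Module D V]
    (φ : LatticeHom (Submodule E (Fin 3 → E)) (Submodule D V)) (hφ : Function.Injective φ)
    (n : ℕ) : (n : E) = 0 ↔ (n : D) = 0 := by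
  have hmono : Monotone φ := OrderHomClass.mono φ
  have hbot : ∀ S, φ ⊥ ≤ φ S := fun S => hmono bot_le
  -- choice of `x`
  obtain ⟨x, hx, hx0⟩ : ∃ x ∈ φ (line 1 0 0), x ∉ φ ⊥ := by
    by_contra h
    push Not at h
    exact line_ne_bot (hφ (le_antisymm h (hbot _)))
  have hx' : x ∈ φ (line 1 0 1) ⊔ φ (line 0 0 1) := by
    rw [← SupHomClass.map_sup φ]; exact hmono le13 hx
  obtain ⟨g, hg, z, hz, hgz⟩ := mem_sup.mp hx'
  have hz' : -z ∈ φ (line 0 1 1) ⊔ φ (line 0 1 0) := by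
    rw [← SupHomClass.map_sup φ]; exact hmono le23 (neg_mem hz)
  obtain ⟨g', hg', y', hy', hgy⟩ := mem_sup.mp hz'
  set y := -y' with hy
  have hyP : y ∈ φ (line 0 1 0) := neg_mem hy'
  have e1 : x + -z = g := by rw [← hgz]; abel
  have e2 : y + -z = g' := by rw [hy, ← hgy]; abel
  have claim : ∀ k : ℕ, x + (k : D) • y ∈ φ (line 1 (k : E) 0) := by
    intro k
    induction k with
    | zero => simpa using hx
    | succ k ih =>
      have hle := hmono (step_le (k : E))
      simp only [SupHomClass.map_sup φ, InfHomClass.map_inf φ] at hle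
      rw [Nat.cast_succ (R := E)]
      apply hle
      refine ⟨?_, ?_⟩
      · have h1 : (x + (k : D) • y) + (y + -z) ∈ φ (line 1 (k : E) 0) ⊔ φ (line 0 1 1) :=
          add_mem (mem_sup_left ih) (mem_sup_right (e2 ▸ hg'))
        have h2 : (x + -z) + ((k + 1 : ℕ) : D) • y ∈ φ (line (1 : E) 0 1) ⊔ φ (line 0 1 0) :=
          add_mem (mem_sup_left (e1 ▸ hg)) (mem_sup_right (smul_mem _ _ hyP))
        have h3 : (x + (k : D) • y) + (y + -z) = (x + -z) + ((k + 1 : ℕ) : D) • y := by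
          push_cast
          rw [add_smul, one_smul]; abel
        have h4 : x + ((k + 1 : ℕ) : D) • y = ((x + -z) + ((k + 1 : ℕ) : D) • y) + z := by abel
        rw [h4]
        refine add_mem (mem_sup_left ⟨?_, h2⟩) (mem_sup_right hz)
        rw [← h3]
        exact h1
      · exact add_mem (mem_sup_left hx) (mem_sup_right (smul_mem _ _ hyP))
  constructor
  · intro hE
    by_contra hD
    have h1 := claim n
    rw [hE] at h1
    have h2 : (n : D) • y ∈ φ (line (1 : E) 0 0) := by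
      have := sub_mem h1 hx
      simpa using this
    have h3 : (n : D) • y ∈ φ ⊥ := by
      rw [← disj12, InfHomClass.map_inf φ]
      exact ⟨h2, smul_mem _ _ hyP⟩
    have h4 : y ∈ φ ⊥ := by
      have := smul_mem _ ((n : D)⁻¹) h3
      rwa [smul_smul, inv_mul_cancel₀ hD, one_smul] at this
    have h5 : -z ∈ φ ⊥ := by
      rw [← disj23, InfHomClass.map_inf φ]
      refine ⟨?_, neg_mem hz⟩
      have : -z = g' - y := by rw [← e2]; abel
      rw [this]
      exact sub_mem hg' (hbot _ h4)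
    apply hx0
    rw [← disj13, InfHomClass.map_inf φ]
    refine ⟨?_, hx⟩
    have : x = g - -z := by rw [← e1]; abel
    rw [this]
    exact sub_mem hg (hbot _ h5)
  · intro hD
    by_contra hE
    apply hx0
    rw [← disjU hE, InfHomClass.map_inf φ]
    refine ⟨?_, hx⟩
    have := claim n
    rwa [hD, zero_smul, add_zero] at this

end Pool.Agent.H686R3
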