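import Mathlib

/-! Ultraproducts of subspace lattices embed in subspace lattices over the ultraproduct field. -/

namespace Pool.Agent.H686R3

open Filter

section ultra

variable {I : Type} (U : Ultrafilter I) (F : I → Type) [∀ i, Field (F i)]

/-- the ideal of `U`-almost everywhere vanishing families -/
def uIdeal : Ideal (∀ i, F i) where
  carrier := {r | ∀ᶠ i in (U : Filter I), r i = 0}
  add_mem' := by
    intro a b ha hb
    filter_upwards [ha, hb] with i h1 h2
    simp [h1, h2]
  zero_mem' := by simp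
  smul_mem' := by
    intro c a ha
    filter_upwards [ha] with i h1
    simp [h1]

theorem mem_uIdeal {r : ∀ i, F i} : r ∈ uIdeal U F ↔ ∀ᶠ i in (U : Filter I), r i = 0 := Iff.rfl

instance uIdeal_isMaximal : (uIdeal U F).IsMaximal := by
  rw [Ideal.isMaximal_iff]
  constructor
  · rw [mem_uIdeal]
    intro h
    obtain ⟨i, hi⟩ := h.exists
    exact one_ne_zero hi
  · intro J x hJ hx hxJ
    rw [mem_uIdeal] at hx
    have hx' : ∀ᶠ i in (U : Filter I), x i ≠ 0 := Ultrafilter.eventually_not.mpr hx
    have h1 : (fun i => (x i)⁻¹) * x ∈ J := J.mul_mem_left _ hxJ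
    have h2 : (1 : ∀ i, F i) - (fun i => (x i)⁻¹) * x ∈ J := by
      apply hJ
      rw [mem_uIdeal]
      filter_upwards [hx'] with i hi
      simp [hi]
    have := J.add_mem h2 h1
    simpa using this

/-- the ultraproduct of the fields `F i` -/
def UField : Type := (∀ i, F i) ⧸ uIdeal U F

noncomputable instance : Field (UField U F) := Ideal.Quotient.field (uIdeal U F)

/-- the projection to the ultraproduct field -/
def toUField (r : ∀ i, F i) : UField U F := Ideal.Quotient.mk (uIdeal U F) r

theorem toUField_surjective : Function.Surjective (toUField U F) := Ideal.Quotient.mk_surjective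

theorem toUField_natCast (n : ℕ) : toUField U F (fun i => (n : F i)) = (n : UField U F) :=
  map_natCast (Ideal.Quotient.mk (uIdeal U F)) n

theorem natCast_eq_zero_iff (n : ℕ) :
    (n : UField U F) = 0 ↔ ∀ᶠ i in (U : Filter I), (n : F i) = 0 := by
  rw [← toUField_natCast]
  exact Ideal.Quotient.eq_zero_iff_mem

variable (V : I → Type) [∀ i, AddCommGroup (V i)] [∀ i, Module (F i) (V i)]

/-- the submodule of almost everywhere vanishing families of vectors -/
def uNull : Submodule (∀ i, F i) (∀ i, V i) where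
  carrier := {v | ∀ᶠ i in (U : Filter I), v i = 0}
  add_mem' := by
    intro a b ha hb
    filter_upwards [ha, hb] with i h1 h2
    simp [h1, h2]
  zero_mem' := by simp
  smul_mem' := by
    intro c a ha
    filter_upwards [ha] with i h1
    simp [h1]

/-- the ultraproduct of the vector spaces `V i` -/
def UMod : Type := (∀ i, V i) ⧸ uNull U F V

noncomputable instance : AddCommGroup (UMod U F V) :=
  inferInstanceAs (AddCommGroup ((∀ i, V i) ⧸ uNull U F V))

noncomputable instance : Module (∀ i, F i) (UMod U F V) :=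
  inferInstanceAs (Module (∀ i, F i) ((∀ i, V i) ⧸ uNull U F V))

theorem uTorsion : Module.IsTorsionBySet (∀ i, F i) (UMod U F V)
    (uIdeal U F : Set (∀ i, F i)) := by
  intro x a
  obtain ⟨v, rfl⟩ := Submodule.Quotient.mk_surjective _ x
  refine (Submodule.Quotient.mk_eq_zero (uNull U F V)).mpr ?_
  have ha : ∀ᶠ i in (U : Filter I), (a : ∀ i, F i) i = 0 := a.2
  change ∀ᶠ i in (U : Filter I), ((a : ∀ i, F i) • v) i = 0
  filter_upwards [ha] with i hi
  simp [Pi.smul_apply', hi]

noncomputable instance : Module (UField U F) (UMod U F V) :=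
  Module.IsTorsionBySet.module (uTorsion U F V)

/-- the projection to the ultraproduct of vector spaces -/
def toUMod (v : ∀ i, V i) : UMod U F V := Submodule.Quotient.mk v

theorem toUMod_surjective : Function.Surjective (toUMod U F V) :=
  Submodule.Quotient.mk_surjective _

theorem toUMod_eq_iff (v w : ∀ i, V i) :
    toUMod U F V v = toUMod U F V w ↔ ∀ᶠ i in (U : Filter I), v i = w i := by
  refine (Submodule.Quotient.eq (uNull U F V)).trans ?_
  change (∀ᶠ i in (U : Filter I), (v - w) i = 0) ↔ _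
  simp [sub_eq_zero]

theorem toUMod_add (v w : ∀ i, V i) :
    toUMod U F V (v + w) = toUMod U F V v + toUMod U F V w := rfl

theorem toUMod_zero : toUMod U F V 0 = 0 := rfl

theorem toUMod_smul (r : ∀ i, F i) (v : ∀ i, V i) :
    toUMod U F V (r • v) = toUField U F r • toUMod U F V v :=
  (Module.IsTorsionBySet.mk_smul (uTorsion U F V) r (toUMod U F V v)).symm

/-- the ultraproduct of subspaces -/
def uSub (S : ∀ i, Submodule (F i) (V i)) : Submodule (UField U F) (UMod U F V) where
  carrier := {w | ∃ v : ∀ i, V i, toUMod U F V v = w ∧ ∀ᶠ i in (U : Filter I), v i ∈ S i}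
  add_mem' := by
    rintro _ _ ⟨v, rfl, hv⟩ ⟨w, rfl, hw⟩
    refine ⟨v + w, toUMod_add .., ?_⟩
    filter_upwards [hv, hw] with i h1 h2
    exact add_mem h1 h2
  zero_mem' := ⟨0, toUMod_zero .., by simp⟩
  smul_mem' := by
    rintro c _ ⟨v, rfl, hv⟩
    obtain ⟨r, rfl⟩ := toUField_surjective U F c
    refine ⟨r • v, toUMod_smul .., ?_⟩
    filter_upwards [hv] with i h1
    exact Submodule.smul_mem _ _ h1

variable {V}

theorem mem_uSub {S : ∀ i, Submodule (F i) (V i)} {v : ∀ i, V i} :
    toUMod U F V v ∈ uSub U F V S ↔ ∀ᶠ i in (U : Filter I), v i ∈ S i := by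
  constructor
  · rintro ⟨w, hw, h⟩
    rw [toUMod_eq_iff] at hw
    filter_upwards [hw, h] with i h1 h2
    rwa [← h1]
  · intro h
    exact ⟨v, rfl, h⟩

theorem uSub_inf (S T : ∀ i, Submodule (F i) (V i)) :
    uSub U F V (S ⊓ T) = uSub U F V S ⊓ uSub U F V T := by
  ext w
  obtain ⟨v, rfl⟩ := toUMod_surjective U F V w
  rw [Submodule.mem_inf, mem_uSub, mem_uSub, mem_uSub, ← Filter.eventually_and]
  rfl

theorem uSub_sup (S T : ∀ i, Submodule (F i) (V i)) :
    uSub U F V (S ⊔ T) = uSub U F V S ⊔ uSub U F V T := by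
  classical
  ext w
  obtain ⟨v, rfl⟩ := toUMod_surjective U F V w
  rw [mem_uSub, Submodule.mem_sup]
  constructor
  · intro h
    have hch : ∀ i, ∃ s t : V i, s + t = v i ∧ (v i ∈ S i ⊔ T i → s ∈ S i ∧ t ∈ T i) := by
      intro i
      by_cases hi : v i ∈ S i ⊔ T i
      · obtain ⟨s, hs, t, ht, hst⟩ := Submodule.mem_sup.mp hi
        exact ⟨s, t, hst, fun _ => ⟨hs, ht⟩⟩
      · exact ⟨v i, 0, by simp, fun h => absurd h hi⟩
    choose s t hst hmem using hch
    refine ⟨toUMod U F V s, ?_, toUMod U F V t, ?_, ?_⟩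
    · rw [mem_uSub]
      filter_upwards [h] with i hi
      exact (hmem i hi).1
    · rw [mem_uSub]
      filter_upwards [h] with i hi
      exact (hmem i hi).2
    · rw [← toUMod_add]
      congr 1
      funext i
      exact hst i
  · rintro ⟨_, ⟨s, rfl, hs⟩, _, ⟨t, rfl, ht⟩, hst⟩
    rw [← toUMod_add, toUMod_eq_iff] at hst
    filter_upwards [hs, ht, hst] with i h1 h2 h3
    rw [← h3]
    exact Submodule.mem_sup.mpr ⟨_, h1, _, h2, rfl⟩

theorem uSub_le_iff (S T : ∀ i, Submodule (F i) (V i)) :
    uSub U F V S ≤ uSub U F V T ↔ ∀ᶠ i in (U : Filter I), S i ≤ T i := by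
  classical
  constructor
  · intro h
    by_contra hne
    rw [← Ultrafilter.eventually_not] at hne
    have hch : ∀ i, ∃ v : V i, v ∈ S i ∧ (¬ S i ≤ T i → v ∉ T i) := by
      intro i
      by_cases hi : S i ≤ T i
      · exact ⟨0, zero_mem _, fun h => absurd hi h⟩
      · obtain ⟨v, hv, hv'⟩ := SetLike.not_le_iff_exists.mp hi
        exact ⟨v, hv, fun _ => hv'⟩
    choose v hvS hvT using hch
    have h1 : toUMod U F V v ∈ uSub U F V T := h (by rw [mem_uSub]; exact Eventually.of_forall hvS)
    rw [mem_uSub] at h1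
    obtain ⟨i, hi1, hi2⟩ := (h1.and hne).exists
    exact hvT i hi2 hi1
  · rintro h _ ⟨v, rfl, hv⟩
    rw [mem_uSub]
    filter_upwards [h, hv] with i h1 h2
    exact h1 h2

theorem uSub_eq_iff (S T : ∀ i, Submodule (F i) (V i)) :
    uSub U F V S = uSub U F V T ↔ ∀ᶠ i in (U : Filter I), S i = T i := by
  rw [le_antisymm_iff, uSub_le_iff, uSub_le_iff, ← Filter.eventually_and]
  constructor <;> intro h <;> filter_upwards [h] with i hi
  · exact le_antisymm hi.1 hi.2
  · exact ⟨hi.le, hi.ge⟩

end ultra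

end Pool.Agent.H686R3
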