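import Mathlib
import Pool.Agent.H686R3.SubspaceChar
import Pool.Agent.H686R3.UltraSub

/-! First-order language of lattices, and the key ultraproduct. -/

namespace Pool.Agent.H686R3

open FirstOrder Filter

/-- the two binary operation symbols of the language of lattices -/
inductive LatFunc : ℕ → Type
  | sup : LatFunc 2
  | inf : LatFunc 2

/-- the first-order language of lattices: binary operation symbols for join and meet, no constants,
no relation symbols (besides equality) -/
def latLang : FirstOrder.Language.{0, 0} := ⟨LatFunc, fun _ => Empty⟩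

/-- every lattice is a structure for the language of lattices, in the obvious way -/
instance latStructure (L : Type) [Lattice L] : latLang.Structure L where
  funMap := fun {_} f x =>
    match f, x with
    | LatFunc.sup, x => x 0 ⊔ x 1
    | LatFunc.inf, x => x 0 ⊓ x 1
  RelMap := fun {_} r _ => Empty.elim r

/-- a product lattice, one factor over `F`, the other one over `E` -/
abbrev TwoField (F E : Type) [Field F] [Field E] : Type :=
  Submodule F (Fin 3 → F) × Submodule E (Fin 3 → E)

theorem not_embeds_of_char {F E : Type} [Field F] [Field E] (n : ℕ)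
    (hF : (n : F) = 0) (hE : (n : E) ≠ 0)
    {D : Type*} [DivisionRing D] {V : Type*} [AddCommGroup V] [Module D V]
    (φ : LatticeHom (TwoField F E) (Submodule D V)) (hφ : Function.Injective φ) : False := by
  let φ1 : LatticeHom (Submodule F (Fin 3 → F)) (Submodule D V) :=
    { toFun := fun S => φ (S, ⊥)
      map_sup' := by
        intro a b
        rw [← SupHomClass.map_sup φ]
        congr 1
        simp
      map_inf' := by
        intro a b
        rw [← InfHomClass.map_inf φ]
        congr 1
        simp }
  let φ2 : LatticeHom (Submodule E (Fin 3 → E)) (Submodule D V) :=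
    { toFun := fun S => φ (⊥, S)
      map_sup' := by
        intro a b
        rw [← SupHomClass.map_sup φ]
        congr 1
        simp
      map_inf' := by
        intro a b
        rw [← InfHomClass.map_inf φ]
        congr 1
        simp }
  have h1 : Function.Injective φ1 := by
    intro a b hab
    have := hφ hab
    exact (Prod.mk.injEq _ _ _ _ ▸ this).1
  have h2 : Function.Injective φ2 := by
    intro a b hab
    have := hφ hab
    exact (Prod.mk.injEq _ _ _ _ ▸ this).2
  exact hE ((natCast_eq_zero_iff_of_embedding φ2 h2 n).mpr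
    ((natCast_eq_zero_iff_of_embedding φ1 h1 n).mp hF))

/-- the `i`-th prime field -/
abbrev PF (i : ℕ) : Type := ZMod (Nat.nth Nat.Prime i)

instance primeFact (i : ℕ) : Fact (Nat.nth Nat.Prime i).Prime :=
  ⟨Nat.prime_nth_prime i⟩

/-- a nonprincipal ultrafilter on `ℕ` -/
noncomputable abbrev UU : Ultrafilter ℕ := hyperfilter ℕ

/-- a nonprincipal ultraproduct of the prime fields: a field of characteristic zero -/
abbrev EE : Type := UField UU PF

theorem EE_char (n : ℕ) (hn : n ≠ 0) : (n : EE) ≠ 0 := by
  rw [Ne, natCast_eq_zero_iff]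
  intro h
  have h2 : ∀ᶠ i in (UU : Filter ℕ), n < i :=
    Filter.Eventually.filter_mono Nat.hyperfilter_le_atTop (eventually_gt_atTop n)
  obtain ⟨i, hi1, hi2⟩ := (h.and h2).exists
  have h3 : Nat.nth Nat.Prime i ∣ n := (ZMod.natCast_eq_zero_iff _ _).mp hi1
  have h4 : Nat.nth Nat.Prime i ≤ n := Nat.le_of_dvd (Nat.pos_of_ne_zero hn) h3
  have h5 : i ≤ Nat.nth Nat.Prime i :=
    (Nat.nth_strictMono Nat.infinite_setOfPred_prime).le_apply
  omega

/-- the second ultraproduct field, an ultrapower of `EE` -/
abbrev FF : Type := UField UU (fun _ : ℕ => EE)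

/-- the lattices `Sub((ℤ/p)³) × Sub(EE³)` -/
abbrev LL (i : ℕ) : Type := TwoField (PF i) EE

theorem LL_not_embeds (i : ℕ) {D : Type*} [DivisionRing D] {V : Type*} [AddCommGroup V]
    [Module D V] (φ : LatticeHom (LL i) (Submodule D V)) (hφ : Function.Injective φ) : False :=
  not_embeds_of_char (Nat.nth Nat.Prime i) (by simp)
    (EE_char _ (Nat.prime_nth_prime i).ne_zero) φ hφ

/-- the space `V₁` over `EE` -/
abbrev W1 : Type := UMod UU PF (fun i => Fin 3 → PF i)

/-- the space over `FF` -/
abbrev WW : Type := UMod UU (fun _ : ℕ => EE) (fun _ : ℕ => W1) ×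
  UMod UU (fun _ : ℕ => EE) (fun _ : ℕ => (Fin 3 → EE))

/-- the map from the product of all `LL i` to the subspace lattice -/
noncomputable def Theta (x : ∀ i, LL i) : Submodule FF WW :=
  (uSub UU (fun _ : ℕ => EE) (fun _ : ℕ => W1)
    (fun _ => uSub UU PF (fun i => Fin 3 → PF i) (fun i => (x i).1))).prod
  (uSub UU (fun _ : ℕ => EE) (fun _ : ℕ => (Fin 3 → EE)) (fun i => (x i).2))

theorem Theta_sup (x y : ∀ i, LL i) : Theta (x ⊔ y) = Theta x ⊔ Theta y := by
  unfold Theta
  rw [Submodule.prod_sup_prod, ← uSub_sup, ← uSub_sup]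
  congr 2
  funext j
  exact uSub_sup UU PF (fun i => (x i).1) (fun i => (y i).1)

theorem Theta_inf (x y : ∀ i, LL i) : Theta (x ⊓ y) = Theta x ⊓ Theta y := by
  unfold Theta
  rw [Submodule.prod_inf_prod, ← uSub_inf, ← uSub_inf]
  congr 2
  funext j
  exact uSub_inf UU PF (fun i => (x i).1) (fun i => (y i).1)

theorem prod_eq_prod_iff {R M N : Type*} [Ring R] [AddCommGroup M] [AddCommGroup N] [Module R M]
    [Module R N] (p p' : Submodule R M) (q q' : Submodule R N) :
    p.prod q = p'.prod q' ↔ p = p' ∧ q = q' := by
  constructor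
  · intro h
    constructor
    · ext x
      have : (x, (0 : N)) ∈ p.prod q ↔ (x, (0 : N)) ∈ p'.prod q' := by rw [h]
      simpa [Submodule.mem_prod] using this
    · ext x
      have : ((0 : M), x) ∈ p.prod q ↔ ((0 : M), x) ∈ p'.prod q' := by rw [h]
      simpa [Submodule.mem_prod] using this
  · rintro ⟨rfl, rfl⟩
    rfl

theorem Theta_eq_iff (x y : ∀ i, LL i) : Theta x = Theta y ↔ ∀ᶠ i in (UU : Filter ℕ), x i = y i := by
  unfold Theta
  rw [prod_eq_prod_iff, uSub_eq_iff, uSub_eq_iff, eventually_const, uSub_eq_iff,
    ← Filter.eventually_and]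
  simp only [Prod.ext_iff]

/-- the sublattice of all `Theta x` -/
noncomputable def MM : Sublattice (Submodule FF WW) where
  carrier := Set.range Theta
  supClosed' := by
    rintro _ ⟨x, rfl⟩ _ ⟨y, rfl⟩
    exact ⟨x ⊔ y, Theta_sup x y⟩
  infClosed' := by
    rintro _ ⟨x, rfl⟩ _ ⟨y, rfl⟩
    exact ⟨x ⊓ y, Theta_inf x y⟩

/-- the underlying map of the isomorphism -/
noncomputable def isoFun : (UU : Filter ℕ).Product LL → MM :=
  Quotient.lift (s := (UU : Filter ℕ).productSetoid LL) (fun x => ⟨Theta x, x, rfl⟩)
    (fun x y hxy => Subtype.ext ((Theta_eq_iff x y).mpr hxy))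

theorem isoFun_mk (x : ∀ i, LL i) : isoFun (x : (UU : Filter ℕ).Product LL) = ⟨Theta x, x, rfl⟩ :=
  rfl

theorem isoFun_bijective : Function.Bijective isoFun := by
  constructor
  · intro a b hab
    induction a using Quotient.inductionOn with
    | _ x =>
      induction b using Quotient.inductionOn with
      | _ y =>
        have h1 : Theta x = Theta y := congrArg Subtype.val hab
        exact Quotient.sound ((Theta_eq_iff x y).mp h1)
  · rintro ⟨_, x, rfl⟩
    exact ⟨(x : (UU : Filter ℕ).Product LL), rfl⟩

/-- the ultraproduct of the lattices `LL i` is isomorphic to `MM` -/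
noncomputable def iso : (UU : Filter ℕ).Product LL ≃[latLang] MM where
  toEquiv := Equiv.ofBijective isoFun isoFun_bijective
  map_fun' := by
    intro n f x
    have hx : ∀ i, ∃ y : ∀ j, LL j, (y : (UU : Filter ℕ).Product LL) = x i := fun i =>
      Quotient.exists_rep (x i)
    choose y hy using hx
    have hxy : x = fun i => (y i : (UU : Filter ℕ).Product LL) := funext fun i => (hy i).symm
    subst hxy
    refine (congrArg isoFun
      (FirstOrder.Language.Ultraproduct.funMap_cast (u := UU) f y)).trans ?_
    cases f with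
    | sup =>
      apply Subtype.ext
      exact Theta_sup (y 0) (y 1)
    | inf =>
      apply Subtype.ext
      exact Theta_inf (y 0) (y 1)
  map_rel' := by
    intro n r
    exact Empty.elim r

/-- The class of subspace lattices (up to sublattices and isomorphism) over fields. -/
theorem core (σ : latLang.Sentence)
    (h : ∀ (M : Type) [Lattice M], (∃ (F : Type) (_ : Field F) (V : Type) (_ : AddCommGroup V)
      (_ : Module F V) (f : LatticeHom M (Submodule F V)), Function.Injective f) → M ⊨ σ) :
    ∀ᶠ i in (UU : Filter ℕ), LL i ⊨ σ := by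
  rw [← FirstOrder.Language.Ultraproduct.sentence_realize]
  have h1 : MM ⊨ σ := h MM ⟨FF, inferInstance, WW, inferInstance, inferInstance,
    Sublattice.subtype MM, Subtype.coe_injective⟩
  exact (FirstOrder.Language.StrongHomClass.realize_sentence iso σ).mpr h1

end Pool.Agent.H686R3
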