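import Mathlib
import Pool.Agent.H686R3.BallAction

/-! The lattices of locally closed transformation monoids and permutation groups, and `M_{2^ω}`. -/

namespace Pool.Agent.H686R3

open Topology

/-- The lattice `M_ι`: an antichain `atom i` (`i : ι`) together with a least element `bot` and a
greatest element `top`. -/
inductive MLat (ι : Type*)
  | bot
  | atom (i : ι)
  | top

namespace MLat

variable {ι : Type*}

instance : PartialOrder (MLat ι) where
  le x y := x = bot ∨ y = top ∨ x = y
  le_refl x := Or.inr (Or.inr rfl)
  le_trans x y z := by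
    rintro (rfl | rfl | rfl) (h | rfl | rfl) <;> simp_all
  le_antisymm x y := by
    rintro (rfl | rfl | rfl) (h | h | h) <;> simp_all

theorem le_def {x y : MLat ι} : x ≤ y ↔ x = bot ∨ y = top ∨ x = y := Iff.rfl

open Classical in
/-- join in `M_ι` -/
noncomputable def sup' : MLat ι → MLat ι → MLat ι
  | bot, y => y
  | x, bot => x
  | atom i, atom j => if i = j then atom i else top
  | _, _ => top

open Classical in
/-- meet in `M_ι` -/
noncomputable def inf' : MLat ι → MLat ι → MLat ι
  | top, y => y
  | x, top => x
  | atom i, atom j => if i = j then atom i else bot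
  | _, _ => bot

noncomputable instance : Lattice (MLat ι) where
  sup := sup'
  inf := inf'
  le_sup_left x y := by
    cases x <;> cases y <;> simp only [sup', le_def] <;> (try split_ifs) <;> simp_all
  le_sup_right x y := by
    cases x <;> cases y <;> simp only [sup', le_def] <;> (try split_ifs) <;> simp_all
  sup_le x y z := by
    cases x <;> cases y <;> cases z <;> simp only [sup', le_def] <;> (try split_ifs) <;>
      simp_all <;> grind
  inf_le_left x y := by
    cases x <;> cases y <;> simp only [inf', le_def] <;> (try split_ifs) <;> simp_all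
  inf_le_right x y := by
    cases x <;> cases y <;> simp only [inf', le_def] <;> (try split_ifs) <;> simp_all
  le_inf x y z := by
    cases x <;> cases y <;> cases z <;> simp only [inf', le_def] <;> (try split_ifs) <;>
      simp_all

theorem sup_def (x y : MLat ι) : x ⊔ y = sup' x y := rfl
theorem inf_def (x y : MLat ι) : x ⊓ y = inf' x y := rfl

/-- criterion for an embedding of `M_ι` -/
theorem exists_embedding {L : Type*} [Lattice L] (b t : L) (a : ι → L) (hι : Nonempty ι)
    (hb : ∀ i, b < a i) (ht : ∀ i, a i < t) (hinf : ∀ i j, i ≠ j → a i ⊓ a j = b)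
    (hsup : ∀ i j, i ≠ j → a i ⊔ a j = t) :
    ∃ f : LatticeHom (MLat ι) L, Function.Injective f := by
  classical
  have hbt : b < t := (hb hι.some).trans (ht hι.some)
  let F : MLat ι → L := fun x => match x with
    | bot => b
    | atom i => a i
    | top => t
  have hF1 : F bot = b := rfl
  have hF2 : ∀ i, F (atom i) = a i := fun _ => rfl
  have hF3 : F top = t := rfl
  refine ⟨{ toFun := F, map_sup' := ?_, map_inf' := ?_ }, ?_⟩
  · intro x y
    cases x with
    | bot =>
      cases y with
      | bot => simp [sup_def, sup', hF1]
      | atom j => simp [sup_def, sup', hF1, hF2, (hb j).le]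
      | top => simp [sup_def, sup', hF1, hF3, hbt.le]
    | atom i =>
      cases y with
      | bot => simp [sup_def, sup', hF1, hF2, (hb i).le]
      | atom j =>
        by_cases hij : i = j
        · subst hij; simp [sup_def, sup', hF2]
        · simp [sup_def, sup', hF2, hF3, hij, hsup i j hij]
      | top => simp [sup_def, sup', hF2, hF3, (ht i).le]
    | top =>
      cases y with
      | bot => simp [sup_def, sup', hF1, hF3, hbt.le]
      | atom j => simp [sup_def, sup', hF2, hF3, (ht j).le]
      | top => simp [sup_def, sup', hF3]
  · intro x y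
    cases x with
    | bot =>
      cases y with
      | bot => simp [inf_def, inf', hF1]
      | atom j => simp [inf_def, inf', hF1, hF2, (hb j).le]
      | top => simp [inf_def, inf', hF1, hF3, hbt.le]
    | atom i =>
      cases y with
      | bot => simp [inf_def, inf', hF1, hF2, (hb i).le]
      | atom j =>
        by_cases hij : i = j
        · subst hij; simp [inf_def, inf', hF2]
        · simp [inf_def, inf', hF2, hF1, hij, hinf i j hij]
      | top => simp [inf_def, inf', hF2, hF3, (ht i).le]
    | top =>
      cases y with
      | bot => simp [inf_def, inf', hF1, hF3, hbt.le]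
      | atom j => simp [inf_def, inf', hF2, hF3, (ht j).le]
      | top => simp [inf_def, inf', hF3]
  · intro x y hxy
    change F x = F y at hxy
    cases x with
    | bot =>
      cases y with
      | bot => rfl
      | atom j => exact absurd hxy (hb j).ne
      | top => exact absurd hxy hbt.ne
    | atom i =>
      cases y with
      | bot => exact absurd hxy (hb i).ne'
      | atom j =>
        by_contra hne
        have hij : i ≠ j := fun h => hne (h ▸ rfl)
        have h1 : a i = a j := hxy
        have h2 := hsup i j hij
        rw [← h1, sup_idem] at h2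
        exact (ht i).ne h2
      | top => exact absurd hxy (ht i).ne
    | top =>
      cases y with
      | bot => exact absurd hxy hbt.ne'
      | atom j => exact absurd hxy (ht j).ne'
      | top => rfl

end MLat

/-- The topology of pointwise convergence on `X → X`: the product topology, where `X` is
discrete. -/
@[reducible] def pointwiseTopology (X : Type*) : TopologicalSpace (X → X) :=
  @Pi.topologicalSpace X (fun _ => X) (fun _ => ⊥)

theorem isClosed_pointwise_iff {X : Type*} (S : Set (X → X)) :
    IsClosed[pointwiseTopology X] S ↔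
      ∀ f : X → X, (∀ A : Finset X, ∃ g ∈ S, ∀ x ∈ A, g x = f x) → f ∈ S := by
  let _ : TopologicalSpace X := ⊥
  have : DiscreteTopology X := ⟨rfl⟩
  change IsClosed S ↔ _
  rw [← isOpen_compl_iff, isOpen_pi_iff]
  constructor
  · intro h f hf
    by_contra hfS
    obtain ⟨I, u, hu, hsub⟩ := h f hfS
    obtain ⟨g, hgS, hg⟩ := hf I
    refine hsub (a := g) ?_ hgS
    intro i hi
    rw [hg i hi]
    exact (hu i hi).2
  · intro h f hf
    by_contra hcon
    apply hf
    apply h
    intro A
    by_contra hA
    push Not at hA
    apply hcon
    refine ⟨A, fun i => {f i}, fun i _ => ⟨isOpen_discrete _, rfl⟩, ?_⟩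
    intro g hg hgS
    obtain ⟨x, hx, hne⟩ := hA g hgS
    exact hne (hg x hx)

theorem isClosed_induced_pointwise_iff {X : Type*} (S : Set (Equiv.Perm X)) :
    IsClosed[(pointwiseTopology X).induced (fun g : Equiv.Perm X => (g : X → X))] S ↔
      ∀ f : Equiv.Perm X, (∀ A : Finset X, ∃ g ∈ S, ∀ x ∈ A, g x = f x) → f ∈ S := by
  let _ := pointwiseTopology X
  rw [isClosed_induced_iff]
  constructor
  · rintro ⟨C, hC, rfl⟩ f hf
    have h := (isClosed_pointwise_iff C).mp hC
    refine h f fun A => ?_
    obtain ⟨g, hg, hgA⟩ := hf A
    exact ⟨g, hg, hgA⟩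
  · intro h
    refine ⟨{f | ∀ A : Finset X, ∃ g ∈ S, ∀ x ∈ A, g x = f x}, ?_, ?_⟩
    · refine (isClosed_pointwise_iff _).mpr ?_
      intro f hf A
      obtain ⟨f', hf', hA⟩ := hf A
      obtain ⟨g, hg, hgA⟩ := hf' A
      exact ⟨g, hg, fun x hx => (hgA x hx).trans (hA x hx)⟩
    · ext f
      constructor
      · intro hf
        exact h f hf
      · intro hf A
        exact ⟨f, hf, fun _ _ => rfl⟩

/-- `Mon_ℓ(X)`: the locally closed transformation monoids on `X`, i.e. the submonoids of `X^X`
which are closed in the topology of pointwise convergence, ordered by inclusion. -/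
def LocalMonoid (X : Type*) : Type _ :=
  {M : Submonoid (Function.End X) // IsClosed[pointwiseTopology X] {f : X → X | f ∈ M}}

/-- `Gr_ℓ(X)`: the locally closed permutation groups on `X`, i.e. the subgroups of `Sym(X)` which
are closed in `Sym(X)` with the subspace topology from `X^X`, ordered by inclusion. -/
def LocalGroup (X : Type*) : Type _ :=
  {G : Subgroup (Equiv.Perm X) //
    IsClosed[(pointwiseTopology X).induced (fun g : Equiv.Perm X => (g : X → X))]
      (G : Set (Equiv.Perm X))}

instance (X : Type*) : PartialOrder (LocalMonoid X) := Subtype.partialOrder _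
instance (X : Type*) : PartialOrder (LocalGroup X) := Subtype.partialOrder _

theorem sInf_closed_monoid {X : Type*} (s : Set (LocalMonoid X)) :
    IsClosed[pointwiseTopology X]
      {f : X → X | f ∈ (sInf (Subtype.val '' s) : Submonoid (Function.End X))} := by
  rw [isClosed_pointwise_iff]
  intro f hf
  refine (Submonoid.mem_sInf (M := Function.End X)).mpr ?_
  rintro _ ⟨M, hM, rfl⟩
  refine (isClosed_pointwise_iff _).mp M.2 f fun A => ?_
  obtain ⟨g, hg, hgA⟩ := hf A
  exact ⟨g, ((Submonoid.mem_sInf (M := Function.End X)).mp hg) _ ⟨M, hM, rfl⟩, hgA⟩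

theorem sInf_closed_group {X : Type*} (s : Set (LocalGroup X)) :
    IsClosed[(pointwiseTopology X).induced (fun g : Equiv.Perm X => (g : X → X))]
      ((sInf (Subtype.val '' s) : Subgroup (Equiv.Perm X)) : Set (Equiv.Perm X)) := by
  rw [isClosed_induced_pointwise_iff]
  intro f hf
  change f ∈ sInf (Subtype.val '' s)
  rw [Subgroup.mem_sInf]
  rintro _ ⟨M, hM, rfl⟩
  refine (isClosed_induced_pointwise_iff _).mp M.2 f fun A => ?_
  obtain ⟨g, hg, hgA⟩ := hf A
  exact ⟨g, (Subgroup.mem_sInf.mp hg) _ ⟨M, hM, rfl⟩, hgA⟩

instance (X : Type*) : InfSet (LocalMonoid X) :=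
  ⟨fun s => ⟨sInf (Subtype.val '' s), sInf_closed_monoid s⟩⟩
instance (X : Type*) : InfSet (LocalGroup X) :=
  ⟨fun s => ⟨sInf (Subtype.val '' s), sInf_closed_group s⟩⟩

/-- the complete lattice of locally closed monoids (meets are intersections) -/
instance (X : Type*) : CompleteLattice (LocalMonoid X) :=
  completeLatticeOfInf _ fun s => by
    constructor
    · intro M hM
      exact sInf_le (a := M.1) ⟨M, hM, rfl⟩
    · intro M hM
      refine le_sInf (a := M.1) ?_
      rintro _ ⟨N, hN, rfl⟩
      exact hM hN

/-- the complete lattice of locally closed groups (meets are intersections) -/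
instance (X : Type*) : CompleteLattice (LocalGroup X) :=
  completeLatticeOfInf _ fun s => by
    constructor
    · intro M hM
      exact sInf_le (a := M.1) ⟨M, hM, rfl⟩
    · intro M hM
      refine le_sInf (a := M.1) ?_
      rintro _ ⟨N, hN, rfl⟩
      exact hM hN

end Pool.Agent.H686R3
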