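import Mathlib
import Pool.Agent.H686R3.BallAction
import Pool.Agent.H686R3.LocalLattices

/-! `M_{2^ω}` in the lattices of locally closed monoids and groups. -/

namespace Pool.Agent.H686R3

open Topology BallAction Equiv

theorem exists_index : ∃ f : (ℕ → Bool) → K, Function.Injective f := by
  have h : Cardinal.mk (ℕ → Bool) ≤ Cardinal.mk K := by
    have := continuum_le_cardinal_of_nontriviallyNormedField K
    simpa using this
  obtain ⟨f⟩ := h
  exact ⟨f, f.injective⟩

section
variable {X : Type*} (e : Y ≃ X)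

theorem permCongr_apply' (f : Perm Y) (x : X) : e.permCongrHom f x = e (f (e.symm x)) := rfl

theorem zpow_closed (a : K) (f : X → X)
    (h : ∀ A : Finset X, ∃ n : ℤ, ∀ x ∈ A, ((e.permCongrHom (g a)) ^ n) x = f x) :
    ∃ n : ℤ, ∀ x, ((e.permCongrHom (g a)) ^ n) x = f x := by
  classical
  have key2 : ∀ (n : ℤ) (x : X), ((e.permCongrHom (g a)) ^ n) x = e (((g a) ^ n) (e.symm x)) := by
    intro n x
    rw [← map_zpow, permCongr_apply']
  obtain ⟨n, hn⟩ := h {e (0, 0)}
  refine ⟨n, fun x => ?_⟩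
  obtain ⟨m, hm⟩ := h {e (0, 0), x}
  have h1 := hn (e (0, 0)) (by simp)
  have h2 := hm (e (0, 0)) (by simp)
  have h3 : m = n := by
    rw [← h1, key2, key2, e.symm_apply_apply] at h2
    have h4 := congrArg Prod.fst (e.injective h2)
    rw [g_zpow_apply_fst, g_zpow_apply_fst] at h4
    omega
  rw [← h3]
  exact hm x (by simp)

theorem zpow_mem_of (S : Submonoid (Perm Y)) (h1 : ∀ x, T x ∈ S) (h2 : σ ∈ S) (h3 : σ⁻¹ ∈ S)
    (a : K) (n : ℤ) : (g a) ^ n ∈ S := by
  have hg : g a ∈ S := S.mul_mem (S.mul_mem (h1 _) h2) (h1 _)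
  have hg' : (g a)⁻¹ ∈ S := by
    have : (g a)⁻¹ = T a * σ⁻¹ * T (-a) := by
      unfold g
      rw [T_neg]
      group
    rw [this]
    exact S.mul_mem (S.mul_mem (h1 _) h3) (h1 _)
  obtain ⟨m, rfl | rfl⟩ := n.eq_nat_or_neg
  · rw [zpow_natCast]; exact S.pow_mem hg m
  · rw [zpow_neg, zpow_natCast, ← inv_pow]; exact S.pow_mem hg' m

theorem T_one_ne (a : K) (n : ℤ) : (g a) ^ n ≠ T 1 := by
  intro h
  have h1 := congrArg (fun f : Perm Y => (f (0, 0)).1) h
  simp only [g_zpow_apply_fst, T_apply] at h1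
  have h2 : n = 0 := by omega
  rw [h2, zpow_zero, ← T_zero] at h
  exact zero_ne_one (T_injective h)

/-- the interpolation property is inherited -/
theorem pullback_closed (P : Perm X → Prop)
    (hP : ∀ f : Perm X, (∀ A : Finset X, ∃ s, P s ∧ ∀ x ∈ A, s x = f x) → P f)
    (f : Perm Y) (hf : ∀ A : Finset Y, ∃ s : Perm Y, P (e.permCongrHom s) ∧ ∀ y ∈ A, s y = f y) :
    P (e.permCongrHom f) := by
  classical
  apply hP
  intro A
  obtain ⟨s, hs, hsA⟩ := hf (A.image e.symm)
  refine ⟨_, hs, fun x hx => ?_⟩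
  rw [permCongr_apply', permCongr_apply', hsA _ (Finset.mem_image_of_mem _ hx)]

/-! ### Groups -/

/-- the cyclic group generated by the dilation with centre `a` -/
noncomputable def grp (a : K) : LocalGroup X :=
  ⟨Subgroup.zpowers (e.permCongrHom (g a)), by
    rw [isClosed_induced_pointwise_iff]
    intro f hf
    obtain ⟨n, hn⟩ := zpow_closed e a f (fun A => by
      obtain ⟨h, ⟨n, rfl⟩, hA⟩ := hf A
      exact ⟨n, hA⟩)
    exact ⟨n, Equiv.ext hn⟩⟩

/-- the trivial group -/
def grpBot (X : Type*) : LocalGroup X :=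
  ⟨⊥, by
    rw [isClosed_induced_pointwise_iff]
    intro f hf
    change f ∈ (⊥ : Subgroup (Perm X))
    rw [Subgroup.mem_bot]
    ext x
    obtain ⟨h, hh, hA⟩ := hf {x}
    have h1 : h = 1 := Subgroup.mem_bot.mp hh
    rw [← hA x (by simp), h1]⟩

/-- the closed group generated by all translations and `σ` -/
def grpTop : LocalGroup X :=
  sInf {H | (∀ x, e.permCongrHom (T x) ∈ H.1) ∧ e.permCongrHom σ ∈ H.1}

theorem mem_grpTop_iff (f : Perm X) : f ∈ (grpTop e).1 ↔
    ∀ H : LocalGroup X, (∀ x, e.permCongrHom (T x) ∈ H.1) → e.permCongrHom σ ∈ H.1 → f ∈ H.1 := by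
  change f ∈ sInf (Subtype.val '' _) ↔ _
  rw [Subgroup.mem_sInf]
  constructor
  · intro h H h1 h2
    exact h _ ⟨H, ⟨h1, h2⟩, rfl⟩
  · rintro h _ ⟨H, ⟨h1, h2⟩, rfl⟩
    exact h H h1 h2

theorem grp_le_top (a : K) : grp e a ≤ grpTop e := by
  intro f hf
  obtain ⟨n, rfl⟩ := hf
  rw [mem_grpTop_iff]
  intro H h1 h2
  have := zpow_mem_of (H.1.comap e.permCongrHom.toMonoidHom).toSubmonoid h1 h2
    (H.1.comap e.permCongrHom.toMonoidHom |>.inv_mem h2) a n
  have h3 : e.permCongrHom ((g a) ^ n) ∈ H.1 := this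
  rw [map_zpow] at h3
  exact h3

theorem exists_group_embedding [Countable X] [Infinite X] :
    ∃ f : LatticeHom (MLat (ℕ → Bool)) (LocalGroup X), Function.Injective f := by
  obtain ⟨idx, hidx⟩ := exists_index
  obtain ⟨e⟩ : Nonempty (Y ≃ X) := nonempty_equiv_of_countable
  refine MLat.exists_embedding (grpBot X) (grpTop e) (fun i => grp e (idx i)) ⟨fun _ => true⟩
    ?_ ?_ ?_ ?_
  · intro i
    refine lt_of_le_of_ne (fun f hf => ?_) ?_
    · rw [show f = 1 from Subgroup.mem_bot.mp hf]
      exact (grp e (idx i)).1.one_mem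
    · intro h
      have h1 : e.permCongrHom (g (idx i)) ∈ (grpBot X).1 := by
        rw [h]; exact Subgroup.mem_zpowers _
      have h2 : e.permCongrHom (g (idx i)) = 1 := Subgroup.mem_bot.mp h1
      have h3 : g (idx i) = 1 := by
        rw [← map_one e.permCongrHom] at h2
        exact e.permCongrHom.injective h2
      have h4 := g_apply_fst (idx i) (0, 0)
      rw [h3] at h4
      simp at h4
  · intro i
    refine lt_of_le_of_ne (grp_le_top e _) ?_
    intro h
    have h1 : e.permCongrHom (T 1) ∈ (grp e (idx i)).1 := by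
      rw [h, mem_grpTop_iff]
      intro H h1 _
      exact h1 1
    obtain ⟨n, hn⟩ := h1
    have h2 : (g (idx i)) ^ n = T 1 := by
      apply e.permCongrHom.injective
      rw [map_zpow]
      exact hn
    exact T_one_ne _ _ h2
  · intro i j hij
    have hne : idx i ≠ idx j := fun h => hij (hidx h)
    apply le_antisymm
    · intro f hf
      have hfi : f ∈ (grp e (idx i)).1 := (inf_le_left : grp e (idx i) ⊓ grp e (idx j) ≤ _) hf
      have hfj : f ∈ (grp e (idx j)).1 := (inf_le_right : grp e (idx i) ⊓ grp e (idx j) ≤ _) hf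
      obtain ⟨n, hn⟩ := hfi
      obtain ⟨m, hm⟩ := hfj
      have h1 : (g (idx i)) ^ n = (g (idx j)) ^ m := by
        apply e.permCongrHom.injective
        rw [map_zpow, map_zpow]
        exact hn.trans hm.symm
      have h2 := g_zpow_ne _ _ hne n m h1
      have h3 : f = 1 := by
        rw [← hn, h2]; simp
      rw [h3]
      exact (grpBot X).1.one_mem
    · refine le_inf ?_ ?_ <;>
      · intro f hf
        rw [show f = 1 from Subgroup.mem_bot.mp hf]
        exact Subgroup.one_mem _
  · intro i j hij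
    have hne : idx i ≠ idx j := fun h => hij (hidx h)
    apply le_antisymm (sup_le (grp_le_top e _) (grp_le_top e _))
    set H := grp e (idx i) ⊔ grp e (idx j) with hH
    have hi : e.permCongrHom (g (idx i)) ∈ H.1 :=
      (le_sup_left : grp e (idx i) ≤ H) (Subgroup.mem_zpowers _)
    have hj : e.permCongrHom (g (idx j)) ∈ H.1 :=
      (le_sup_right : grp e (idx j) ≤ H) (Subgroup.mem_zpowers _)
    have hk := key (H.1.comap e.permCongrHom.toMonoidHom).toSubmonoid
      (fun f hf => pullback_closed e (fun f => f ∈ H.1)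
        (fun f hf => (isClosed_induced_pointwise_iff _).mp H.2 f hf) f hf)
      (idx i) (idx j) hne hi (H.1.comap e.permCongrHom.toMonoidHom |>.inv_mem hi) hj
      (H.1.comap e.permCongrHom.toMonoidHom |>.inv_mem hj)
    intro f hf
    rw [mem_grpTop_iff] at hf
    exact hf H hk.1 hk.2.1

/-! ### Monoids -/

/-- the inclusion of `Sym(X)` in `X^X` -/
def toEnd (X : Type*) : Perm X →* Function.End X where
  toFun f := (f : X → X)
  map_one' := rfl
  map_mul' _ _ := rfl

theorem toEnd_injective (X : Type*) : Function.Injective (toEnd X) := by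
  intro f g h
  exact Equiv.coe_fn_injective h

/-- the monoid of all powers (positive and negative) of the dilation with centre `a` -/
noncomputable def mon (a : K) : LocalMonoid X :=
  ⟨(Subgroup.zpowers (e.permCongrHom (g a))).toSubmonoid.map (toEnd X), by
    rw [isClosed_pointwise_iff]
    intro f hf
    obtain ⟨n, hn⟩ := zpow_closed e a f (fun A => by
      obtain ⟨h, ⟨_, ⟨n, rfl⟩, rfl⟩, hA⟩ := hf A
      exact ⟨n, hA⟩)
    exact ⟨_, ⟨n, rfl⟩, funext hn⟩⟩

theorem mem_mon {a : K} {f : Function.End X} :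
    f ∈ (mon e a).1 ↔ ∃ n : ℤ, toEnd X ((e.permCongrHom (g a)) ^ n) = f := by
  constructor
  · rintro ⟨_, ⟨n, rfl⟩, rfl⟩
    exact ⟨n, rfl⟩
  · rintro ⟨n, rfl⟩
    exact ⟨_, ⟨n, rfl⟩, rfl⟩

/-- the trivial monoid -/
def monBot (X : Type*) : LocalMonoid X :=
  ⟨⊥, by
    rw [isClosed_pointwise_iff]
    intro f hf
    refine (Submonoid.mem_bot (M := Function.End X)).mpr ?_
    funext x
    obtain ⟨h, hh, hA⟩ := hf {x}
    have h1 : h = (1 : Function.End X) := (Submonoid.mem_bot (M := Function.End X)).mp hh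
    rw [← hA x (by simp), h1]⟩

/-- the closed monoid generated by all translations, `σ` and `σ⁻¹` -/
def monTop : LocalMonoid X :=
  sInf {H | (∀ x, toEnd X (e.permCongrHom (T x)) ∈ H.1) ∧ toEnd X (e.permCongrHom σ) ∈ H.1 ∧
    toEnd X (e.permCongrHom σ⁻¹) ∈ H.1}

theorem mem_monTop_iff (f : Function.End X) : f ∈ (monTop e).1 ↔
    ∀ H : LocalMonoid X, (∀ x, toEnd X (e.permCongrHom (T x)) ∈ H.1) →
      toEnd X (e.permCongrHom σ) ∈ H.1 → toEnd X (e.permCongrHom σ⁻¹) ∈ H.1 → f ∈ H.1 := by
  change f ∈ sInf (Subtype.val '' _) ↔ _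
  rw [Submonoid.mem_sInf]
  constructor
  · intro h H h1 h2 h3
    exact h _ ⟨H, ⟨h1, h2, h3⟩, rfl⟩
  · rintro h _ ⟨H, ⟨h1, h2, h3⟩, rfl⟩
    exact h H h1 h2 h3

/-- the homomorphism `Sym(Y) → X^X` -/
def hom : Perm Y →* Function.End X := (toEnd X).comp e.permCongrHom.toMonoidHom

theorem mon_le_top (a : K) : mon e a ≤ monTop e := by
  intro f hf
  obtain ⟨n, rfl⟩ := (mem_mon e).mp hf
  rw [mem_monTop_iff]
  intro H h1 h2 h3
  have h4 : (g a) ^ n ∈ H.1.comap (hom e) := zpow_mem_of (H.1.comap (hom e)) h1 h2 h3 a n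
  have h5 : toEnd X (e.permCongrHom ((g a) ^ n)) ∈ H.1 := h4
  rw [map_zpow] at h5
  exact h5

theorem exists_monoid_embedding [Countable X] [Infinite X] :
    ∃ f : LatticeHom (MLat (ℕ → Bool)) (LocalMonoid X), Function.Injective f := by
  obtain ⟨idx, hidx⟩ := exists_index
  obtain ⟨e⟩ : Nonempty (Y ≃ X) := nonempty_equiv_of_countable
  refine MLat.exists_embedding (monBot X) (monTop e) (fun i => mon e (idx i)) ⟨fun _ => true⟩
    ?_ ?_ ?_ ?_
  · intro i
    refine lt_of_le_of_ne (fun f hf => ?_) ?_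
    · rw [show f = 1 from Submonoid.mem_bot.mp hf]
      exact (mon e (idx i)).1.one_mem
    · intro h
      have h1 : toEnd X (e.permCongrHom (g (idx i))) ∈ (monBot X).1 := by
        rw [h, mem_mon]; exact ⟨1, by rw [zpow_one]⟩
      have h2 : toEnd X (e.permCongrHom (g (idx i))) = 1 := Submonoid.mem_bot.mp h1
      have h3 : g (idx i) = 1 := by
        have h2' : toEnd X (e.permCongrHom (g (idx i))) = toEnd X (e.permCongrHom 1) := by
          rw [h2, map_one, map_one]
        exact e.permCongrHom.injective (toEnd_injective X h2')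
      have h4 := g_apply_fst (idx i) (0, 0)
      rw [h3] at h4
      simp at h4
  · intro i
    refine lt_of_le_of_ne (mon_le_top e _) ?_
    intro h
    have h1 : toEnd X (e.permCongrHom (T 1)) ∈ (mon e (idx i)).1 := by
      rw [h, mem_monTop_iff]
      intro H h1 _ _
      exact h1 1
    obtain ⟨n, hn⟩ := (mem_mon e).mp h1
    have h2 : (g (idx i)) ^ n = T 1 := by
      apply e.permCongrHom.injective
      rw [map_zpow]
      exact toEnd_injective X hn
    exact T_one_ne _ _ h2
  · intro i j hij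
    have hne : idx i ≠ idx j := fun h => hij (hidx h)
    apply le_antisymm
    · intro f hf
      have hfi : f ∈ (mon e (idx i)).1 := (inf_le_left : mon e (idx i) ⊓ mon e (idx j) ≤ _) hf
      have hfj : f ∈ (mon e (idx j)).1 := (inf_le_right : mon e (idx i) ⊓ mon e (idx j) ≤ _) hf
      obtain ⟨n, hn⟩ := (mem_mon e).mp hfi
      obtain ⟨m, hm⟩ := (mem_mon e).mp hfj
      have h1 : (g (idx i)) ^ n = (g (idx j)) ^ m := by
        apply e.permCongrHom.injective
        rw [map_zpow, map_zpow]
        exact toEnd_injective X (hn.trans hm.symm)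
      have h2 := g_zpow_ne _ _ hne n m h1
      have h3 : f = 1 := by
        rw [← hn, h2]; rfl
      rw [h3]
      exact (monBot X).1.one_mem
    · refine le_inf ?_ ?_ <;>
      · intro f hf
        rw [show f = 1 from Submonoid.mem_bot.mp hf]
        exact Submonoid.one_mem _
  · intro i j hij
    have hne : idx i ≠ idx j := fun h => hij (hidx h)
    apply le_antisymm (sup_le (mon_le_top e _) (mon_le_top e _))
    set H := mon e (idx i) ⊔ mon e (idx j) with hH
    have hmem : ∀ k, (mon e (idx k)) ≤ H → ∀ n : ℤ, (g (idx k)) ^ n ∈ H.1.comap (hom e) := by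
      intro k hk n
      have h1 : toEnd X ((e.permCongrHom (g (idx k))) ^ n) ∈ H.1 :=
        hk ((mem_mon e).mpr ⟨n, rfl⟩)
      rw [← map_zpow] at h1
      exact h1
    have hi := hmem i le_sup_left
    have hj := hmem j le_sup_right
    have hk := key (H.1.comap (hom e))
      (fun f hf => pullback_closed e (fun f => toEnd X f ∈ H.1)
        (fun f hf => (isClosed_pointwise_iff _).mp H.2 f fun A => by
          obtain ⟨s, hs, hsA⟩ := hf A
          exact ⟨_, hs, hsA⟩) f hf)
      (idx i) (idx j) hne (by simpa using hi 1) (by simpa using hi (-1)) (by simpa using hj 1)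
      (by simpa using hj (-1))
    intro f hf
    rw [mem_monTop_iff] at hf
    exact hf H hk.1 hk.2.1 hk.2.2

end

end Pool.Agent.H686R3
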