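import Mathlib
import Pool.Agent.H686R3.CoarseDefs

/-! The group of `2^n`-periodic functions `ℕ → Sym(ℕ)` with the density metric. -/

namespace Pool.Agent.H686R3.Coarse

open Filter Topology MeasureTheory

/-- proportion of `A` in `[0, 2^n)` -/
noncomputable def avg (A : Set ℕ) (n : ℕ) : ℝ := by
  classical exact (((Finset.range (2 ^ n)).filter (· ∈ A)).card : ℝ) / 2 ^ n

theorem avg_nonneg (A : Set ℕ) (n : ℕ) : 0 ≤ avg A n := by
  unfold avg; positivity

theorem avg_le_one (A : Set ℕ) (n : ℕ) : avg A n ≤ 1 := by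
  classical
  unfold avg
  rw [div_le_one (by positivity)]
  have := Finset.card_filter_le (Finset.range (2 ^ n)) (· ∈ A)
  rw [Finset.card_range] at this
  exact_mod_cast this

theorem avg_univ (n : ℕ) : avg Set.univ n = 1 := by
  classical
  unfold avg
  simp

theorem avg_union (A B : Set ℕ) (h : Disjoint A B) (n : ℕ) :
    avg (A ∪ B) n = avg A n + avg B n := by
  classical
  unfold avg
  rw [← add_div, ← Nat.cast_add, ← Finset.card_union_of_disjoint]
  · congr 3
    ext x
    simp only [Finset.mem_filter, Finset.mem_union, Set.mem_union]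
    tauto
  · rw [Finset.disjoint_filter]
    intro x _ hA hB
    exact Set.disjoint_left.mp h hA hB

/-- residue classes -/
def cls (n r : ℕ) : Set ℕ := {x | x % 2 ^ n = r}

theorem card_cls (n r k : ℕ) (hr : r < 2 ^ n) [DecidablePred (· ∈ cls n r)] :
    ((Finset.range (2 ^ (n + k))).filter (· ∈ cls n r)).card = 2 ^ k := by
  have h : ((Finset.range (2 ^ (n + k))).filter (· ∈ cls n r)) =
      (Finset.range (2 ^ k)).image (fun j => r + 2 ^ n * j) := by
    ext x
    rw [Finset.mem_filter, Finset.mem_range, Finset.mem_image]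
    change (_ ∧ x % 2 ^ n = r) ↔ _
    constructor
    · rintro ⟨h1, h2⟩
      refine ⟨x / 2 ^ n, ?_, ?_⟩
      · rw [Finset.mem_range, Nat.div_lt_iff_lt_mul (by positivity)]
        rwa [pow_add, mul_comm] at h1
      · rw [← h2]; exact Nat.mod_add_div x (2 ^ n)
    · rintro ⟨j, hj, rfl⟩
      rw [Finset.mem_range] at hj
      refine ⟨?_, ?_⟩
      · calc r + 2 ^ n * j < 2 ^ n + 2 ^ n * j := by omega
          _ = 2 ^ n * (j + 1) := by ring
          _ ≤ 2 ^ n * 2 ^ k := Nat.mul_le_mul_left _ hj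
          _ = 2 ^ (n + k) := by rw [pow_add]
      · rw [Nat.add_mul_mod_self_left, Nat.mod_eq_of_lt hr]
  rw [h, Finset.card_image_of_injective, Finset.card_range]
  intro a b hab
  have : 2 ^ n * a = 2 ^ n * b := by simpa using hab
  exact Nat.eq_of_mul_eq_mul_left (by positivity) this

theorem avg_cls (n r k : ℕ) (hr : r < 2 ^ n) : avg (cls n r) (n + k) = 1 / 2 ^ n := by
  classical
  unfold avg
  rw [card_cls n r k hr, pow_add]
  push_cast
  field_simp

/-- a finitely additive probability measure on all subsets -/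
structure IsFAP {α : Type*} (ν : Set α → ℝ) : Prop where
  nonneg : ∀ A, 0 ≤ ν A
  add : ∀ A B, Disjoint A B → ν (A ∪ B) = ν A + ν B
  univ : ν Set.univ = 1

namespace IsFAP
variable {α : Type*} {ν : Set α → ℝ} (h : IsFAP ν)
include h

theorem mono {A B : Set α} (hAB : A ⊆ B) : ν A ≤ ν B := by
  have := h.add A (B \ A) Set.disjoint_sdiff_right
  rw [Set.union_sdiff_cancel hAB] at this
  have := h.nonneg (B \ A)
  linarith

theorem empty : ν ∅ = 0 := by
  have := h.add ∅ ∅ (Set.disjoint_empty _)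
  simp at this
  exact this

theorem le_one (A : Set α) : ν A ≤ 1 := by
  rw [← h.univ]; exact h.mono (Set.subset_univ _)

theorem union_le (A B : Set α) : ν (A ∪ B) ≤ ν A + ν B := by
  have := h.add A (B \ A) Set.disjoint_sdiff_right
  rw [Set.union_sdiff_self] at this
  have := h.mono (Set.sdiff_subset : B \ A ⊆ B)
  linarith

theorem sub_le {A B D : Set α} (hD : A \ B ⊆ D) : ν A - ν B ≤ ν D := by
  have h1 : A ⊆ B ∪ D := by
    intro x hx
    by_cases hB : x ∈ B
    · exact Or.inl hB
    · exact Or.inr (hD ⟨hx, hB⟩)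
  have := h.mono h1
  have := h.union_le B D
  linarith

end IsFAP

theorem exists_density : ∃ m : Set ℕ → ℝ, IsFAP m ∧
    ∀ n r, r < 2 ^ n → m (cls n r) = 1 / 2 ^ n := by
  have hlim : ∀ A : Set ℕ, ∃ x : ℝ, Tendsto (avg A) (hyperfilter ℕ) (𝓝 x) := by
    intro A
    have h1 : Set.Icc (0 : ℝ) 1 ∈ ((hyperfilter ℕ).map (avg A) : Filter ℝ) := by
      rw [Ultrafilter.coe_map, Filter.mem_map]
      exact Filter.univ_mem' fun n => ⟨avg_nonneg A n, avg_le_one A n⟩
    obtain ⟨x, _, hx⟩ := isCompact_Icc.ultrafilter_le_nhds' ((hyperfilter ℕ).map (avg A)) h1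
    exact ⟨x, hx⟩
  choose m hm using hlim
  refine ⟨m, ⟨?_, ?_, ?_⟩, ?_⟩
  · intro A
    exact ge_of_tendsto' (hm A) (avg_nonneg A)
  · intro A B hAB
    refine tendsto_nhds_unique (hm (A ∪ B)) ?_
    have := (hm A).add (hm B)
    refine this.congr fun n => ?_
    rw [avg_union A B hAB]
  · refine tendsto_nhds_unique (hm _) ?_
    refine tendsto_const_nhds.congr fun n => ?_
    rw [avg_univ]
  · intro n r hr
    refine tendsto_nhds_unique (hm _) ?_
    have h1 : ∀ᶠ k in (hyperfilter ℕ : Filter ℕ), avg (cls n r) k = 1 / 2 ^ n := by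
      have h2 : ∀ᶠ k in (hyperfilter ℕ : Filter ℕ), n ≤ k :=
        Filter.Eventually.filter_mono Nat.hyperfilter_le_atTop (eventually_ge_atTop n)
      filter_upwards [h2] with k hk
      obtain ⟨j, rfl⟩ := Nat.exists_eq_add_of_le hk
      exact avg_cls n r j hr
    exact tendsto_const_nhds.congr' (h1.mono fun k hk => hk.symm)

/-- a finitely additive probability measure on `ℕ` giving the residue classes mod `2^n` measure
`2^{-n}` -/
noncomputable def m : Set ℕ → ℝ := exists_density.choose

theorem m_fap : IsFAP m := exists_density.choose_spec.1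
theorem m_cls {n r : ℕ} (hr : r < 2 ^ n) : m (cls n r) = 1 / 2 ^ n :=
  exists_density.choose_spec.2 n r hr

/-- The group of all functions `f : ℕ → Sym(ℕ)` which are periodic with period some `2^n`. -/
def PG : Subgroup (ℕ → Equiv.Perm ℕ) where
  carrier := {f | ∃ n : ℕ, ∀ x, f (x + 2 ^ n) = f x}
  one_mem' := ⟨0, fun _ => rfl⟩
  mul_mem' := by
    rintro f g ⟨n, hn⟩ ⟨k, hk⟩
    refine ⟨n + k, fun x => ?_⟩
    have h1 : ∀ (f : ℕ → Equiv.Perm ℕ) (n : ℕ), (∀ x, f (x + 2 ^ n) = f x) →
        ∀ j x, f (x + 2 ^ n * j) = f x := by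
      intro f n hn j
      induction j with
      | zero => intro x; simp
      | succ j ih =>
        intro x
        rw [mul_add, mul_one, ← add_assoc, hn, ih]
    rw [Pi.mul_apply, Pi.mul_apply]
    have h2 := h1 f n hn (2 ^ k) x
    have h3 := h1 g k hk (2 ^ n) x
    rw [← pow_add] at h2 h3
    rw [h2]
    rw [add_comm k n] at h3
    rw [h3]
  inv_mem' := by
    rintro f ⟨n, hn⟩
    exact ⟨n, fun x => by rw [Pi.inv_apply, Pi.inv_apply, hn]⟩

theorem PG_mod (f : PG) : ∃ n : ℕ, ∀ x, (f : ℕ → Equiv.Perm ℕ) (x % 2 ^ n) = f.1 x := by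
  obtain ⟨n, hn⟩ := f.2
  refine ⟨n, fun x => ?_⟩
  have h1 : ∀ j x, (f : ℕ → Equiv.Perm ℕ) (x + 2 ^ n * j) = f.1 x := by
    intro j
    induction j with
    | zero => intro x; simp
    | succ j ih =>
      intro x
      rw [mul_add, mul_one, ← add_assoc, hn, ih]
  have := h1 (x / 2 ^ n) (x % 2 ^ n)
  rw [Nat.mod_add_div] at this
  exact this.symm

/-- the set where two functions differ -/
def dif (f g : PG) : Set ℕ := {x | f.1 x ≠ g.1 x}

/-- the density metric -/
noncomputable def rho (f g : PG) : ℝ := m (dif f g)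

theorem rho_self (f : PG) : rho f f = 0 := by
  unfold rho dif
  simp [m_fap.empty]

theorem rho_comm (f g : PG) : rho f g = rho g f := by
  unfold rho dif
  congr 1
  ext x
  exact ne_comm

theorem rho_triangle (f g h : PG) : rho f h ≤ rho f g + rho g h := by
  unfold rho
  refine le_trans (m_fap.mono ?_) (m_fap.union_le _ _)
  intro x hx
  by_cases h1 : f.1 x = g.1 x
  · right
    intro h2
    exact hx (h1.trans h2)
  · left
    exact h1

theorem eq_of_rho (f g : PG) (h : rho f g = 0) : f = g := by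
  by_contra hne
  have : ∃ x, f.1 x ≠ g.1 x := by
    by_contra hcon
    push Not at hcon
    exact hne (Subtype.ext (funext hcon))
  obtain ⟨x, hx⟩ := this
  obtain ⟨n, hn⟩ := PG_mod f
  obtain ⟨k, hk⟩ := PG_mod g
  have hsub : cls (n + k) (x % 2 ^ (n + k)) ⊆ dif f g := by
    intro y hy
    have hy' : y % 2 ^ (n + k) = x % 2 ^ (n + k) := hy
    intro heq
    apply hx
    have e1 : y % 2 ^ n = x % 2 ^ n := by
      have : y % 2 ^ (n + k) % 2 ^ n = x % 2 ^ (n + k) % 2 ^ n := by rw [hy']
      rwa [Nat.mod_mod_of_dvd _ (pow_dvd_pow 2 (by omega)),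
        Nat.mod_mod_of_dvd _ (pow_dvd_pow 2 (by omega))] at this
    have e2 : y % 2 ^ k = x % 2 ^ k := by
      have : y % 2 ^ (n + k) % 2 ^ k = x % 2 ^ (n + k) % 2 ^ k := by rw [hy']
      rwa [Nat.mod_mod_of_dvd _ (pow_dvd_pow 2 (by omega)),
        Nat.mod_mod_of_dvd _ (pow_dvd_pow 2 (by omega))] at this
    rw [← hn x, ← hk x, ← e1, ← e2, hn y, hk y]
    exact heq
  have h1 := m_fap.mono hsub
  rw [m_cls (Nat.mod_lt _ (by positivity))] at h1
  have h2 : (0 : ℝ) < 1 / 2 ^ (n + k) := by positivity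
  unfold rho at h
  linarith

noncomputable instance : MetricSpace PG where
  dist := rho
  dist_self := rho_self
  dist_comm := rho_comm
  dist_triangle := rho_triangle
  eq_of_dist_eq_zero := eq_of_rho _ _

theorem dist_def (f g : PG) : dist f g = rho f g := rfl

theorem dist_mul_left (h f g : PG) : dist (h * f) (h * g) = dist f g := by
  rw [dist_def, dist_def]
  unfold rho dif
  congr 1
  ext x
  simp

theorem dist_mul_right (h f g : PG) : dist (f * h) (g * h) = dist f g := by
  rw [dist_def, dist_def]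
  unfold rho dif
  congr 1
  ext x
  simp

theorem dist_inv_inv' (f g : PG) : dist f⁻¹ g⁻¹ = dist f g := by
  rw [dist_def, dist_def]
  unfold rho dif
  congr 1
  ext x
  simp

theorem dist_le_one (f g : PG) : dist f g ≤ 1 := m_fap.le_one _

instance : IsTopologicalGroup PG where
  continuous_mul := by
    rw [Metric.continuous_iff]
    rintro ⟨f, g⟩ ε hε
    refine ⟨ε / 2, by positivity, ?_⟩
    rintro ⟨f', g'⟩ h
    rw [Prod.dist_eq, max_lt_iff] at h
    simp only at h ⊢
    calc dist (f' * g') (f * g) ≤ dist (f' * g') (f * g') + dist (f * g') (f * g) :=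
          dist_triangle _ _ _
      _ = dist f' f + dist g' g := by rw [dist_mul_right, dist_mul_left]
      _ < ε := by linarith [h.1, h.2]
  continuous_inv := by
    rw [Metric.continuous_iff]
    intro f ε hε
    exact ⟨ε, hε, fun g hg => by rwa [dist_inv_inv']⟩

/-- the constant functions -/
def const (s : Equiv.Perm ℕ) : PG := ⟨fun _ => s, 0, fun _ => rfl⟩

/-- truncation of `f` to the residue classes `r < j` mod `2^n` -/
noncomputable def trunc (f : PG) (n j : ℕ) : PG :=
  ⟨fun x => if x % 2 ^ n < j then f.1 x else 1, by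
    obtain ⟨k, hk⟩ := f.2
    refine ⟨n + k, fun x => ?_⟩
    have e1 : (x + 2 ^ (n + k)) % 2 ^ n = x % 2 ^ n := by
      rw [pow_add, Nat.add_mul_mod_self_left]
    have h1 : ∀ j x, f.1 (x + 2 ^ k * j) = f.1 x := by
      intro j
      induction j with
      | zero => intro x; simp
      | succ j ih =>
        intro x
        rw [mul_add, mul_one, ← add_assoc, hk, ih]
    have e2 : f.1 (x + 2 ^ (n + k)) = f.1 x := by
      rw [pow_add, mul_comm]; exact h1 _ x
    change (if (x + 2 ^ (n + k)) % 2 ^ n < j then f.1 (x + 2 ^ (n + k)) else 1) = _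
    rw [e1, e2]⟩

theorem trunc_zero (f : PG) (n : ℕ) : trunc f n 0 = 1 := by
  apply Subtype.ext
  funext x
  simp [trunc]

theorem trunc_full (f : PG) (n : ℕ) : trunc f n (2 ^ n) = f := by
  apply Subtype.ext
  funext x
  have : x % 2 ^ n < 2 ^ n := Nat.mod_lt _ (by positivity)
  simp [trunc, this]

theorem dist_trunc (f : PG) (n j : ℕ) (hj : j < 2 ^ n) :
    dist (trunc f n j) (trunc f n (j + 1)) ≤ 1 / 2 ^ n := by
  rw [dist_def, ← m_cls hj]
  unfold rho
  apply m_fap.mono
  intro x hx
  by_contra hne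
  apply hx
  have hne' : x % 2 ^ n ≠ j := hne
  simp only [trunc]
  by_cases h1 : x % 2 ^ n < j
  · rw [if_pos h1, if_pos (by omega)]
  · rw [if_neg h1, if_neg (by omega)]

end Pool.Agent.H686R3.Coarse
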