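import Mathlib

/-! Pigeonhole: rational numbers composed of given primes, close to `1`. -/

namespace Pool.Agent.H686R3

open Finset

/-- the product of the `p ^ a p`, `p ∈ T` -/
def uval (T : Finset ℕ) (a : ℕ → ℕ) : ℕ := ∏ p ∈ T, p ^ a p

theorem uval_pos {T : Finset ℕ} (hT : ∀ p ∈ T, p.Prime) (a : ℕ → ℕ) : 0 < uval T a :=
  Finset.prod_pos fun p hp => pow_pos (hT p hp).pos _

theorem uval_factorization {T : Finset ℕ} (hT : ∀ p ∈ T, p.Prime) (a : ℕ → ℕ) {q : ℕ}
    (hq : q ∈ T) : (uval T a).factorization q = a q := by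
  unfold uval
  rw [Nat.factorization_prod (fun p hp => (pow_pos (hT p hp).pos _).ne')]
  simp only [Finsupp.coe_finset_sum, Finset.sum_apply]
  rw [Finset.sum_eq_single q]
  · rw [Nat.Prime.factorization_pow (hT q hq)]
    simp
  · intro p hp hpq
    rw [Nat.Prime.factorization_pow (hT p hp)]
    simp [hpq]
  · intro h
    exact absurd hq h

theorem log_uval {T : Finset ℕ} (hT : ∀ p ∈ T, p.Prime) (a : ℕ → ℕ) :
    Real.log (uval T a : ℝ) = ∑ p ∈ T, (a p : ℝ) * Real.log p := by
  unfold uval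
  push_cast
  rw [Real.log_prod (fun p hp => by have := (hT p hp).pos; positivity)]
  refine Finset.sum_congr rfl fun p hp => ?_
  rw [Real.log_pow]

theorem log_uval_le {T : Finset ℕ} (hT : ∀ p ∈ T, p.Prime) {A : ℕ} (a : ℕ → ℕ)
    (ha : ∀ p ∈ T, a p ≤ A) :
    Real.log (uval T a : ℝ) ≤ A * ∑ p ∈ T, Real.log p := by
  rw [log_uval hT, Finset.mul_sum]
  refine Finset.sum_le_sum fun p hp => ?_
  have h1 : (0 : ℝ) ≤ Real.log p := Real.log_natCast_nonneg p
  have h2 : (a p : ℝ) ≤ A := by exact_mod_cast ha p hp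
  exact mul_le_mul_of_nonneg_right h2 h1

theorem log_uval_nonneg {T : Finset ℕ} (hT : ∀ p ∈ T, p.Prime) (a : ℕ → ℕ) :
    0 ≤ Real.log (uval T a : ℝ) := Real.log_natCast_nonneg _

/-- The pigeonhole argument. -/
theorem pigeon {T : Finset ℕ} (hT : ∀ p ∈ T, p.Prime) (hcard : 1 ≤ T.card) {A : ℕ}
    (hA : 1 ≤ A) :
    ∃ a b : ℕ → ℕ, (∀ p ∈ T, a p ≤ A) ∧ (∀ p ∈ T, b p ≤ A) ∧ uval T b < uval T a ∧
      Real.log (uval T a : ℝ) - Real.log (uval T b : ℝ) ≤
        (A * (∑ p ∈ T, Real.log p) + 1) / (A : ℝ) ^ T.card := by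
  classical
  set M : ℝ := ∑ p ∈ T, Real.log p with hM
  have hM0 : 0 ≤ M := Finset.sum_nonneg fun p _ => Real.log_natCast_nonneg p
  set N : ℕ := A ^ T.card with hN
  have hN0 : 0 < N := pow_pos (by omega) _
  set D : ℝ := (A : ℝ) * M + 1 with hD
  have hD0 : 0 < D := by positivity
  -- extension of a function on `T` by zero
  let ext : (T → Fin (A + 1)) → ℕ → ℕ := fun a p => if h : p ∈ T then (a ⟨p, h⟩ : ℕ) else 0
  have hext : ∀ (a : T → Fin (A + 1)) (p : ℕ), ext a p ≤ A := by
    intro a p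
    simp only [ext]
    split_ifs with h
    · have := (a ⟨p, h⟩).2
      omega
    · omega
  have hextinj : ∀ a b : T → Fin (A + 1), (∀ p ∈ T, ext a p = ext b p) → a = b := by
    intro a b h
    funext ⟨p, hp⟩
    have := h p hp
    simp only [ext, hp, dif_pos] at this
    exact Fin.ext this
  have hbound : ∀ a : T → Fin (A + 1),
      ⌊Real.log (uval T (ext a) : ℝ) * N / D⌋₊ < N := by
    intro a
    rw [Nat.floor_lt (by have := log_uval_nonneg hT (ext a); positivity)]
    rw [div_lt_iff₀ hD0]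
    have h1 := log_uval_le hT (A := A) (ext a) (fun p _ => hext a p)
    have h2 : Real.log (uval T (ext a) : ℝ) < D := by
      rw [hD]; linarith
    have hNpos : (0 : ℝ) < N := by exact_mod_cast hN0
    nlinarith
  let f : (T → Fin (A + 1)) → Fin N := fun a => ⟨_, hbound a⟩
  have hlt : Fintype.card (Fin N) < Fintype.card (T → Fin (A + 1)) := by
    rw [Fintype.card_fin, Fintype.card_fun, Fintype.card_fin, Fintype.card_coe, hN]
    exact Nat.pow_lt_pow_left (by omega) (by omega)
  obtain ⟨a, b, hab, hfab⟩ := Fintype.exists_ne_map_eq_of_card_lt f hlt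
  have hne : uval T (ext a) ≠ uval T (ext b) := by
    intro h
    apply hab
    apply hextinj
    intro p hp
    rw [← uval_factorization hT (ext a) hp, ← uval_factorization hT (ext b) hp, h]
  have hfl : ⌊Real.log (uval T (ext a) : ℝ) * N / D⌋₊ =
      ⌊Real.log (uval T (ext b) : ℝ) * N / D⌋₊ := by
    have := congrArg Fin.val hfab
    simpa [f] using this
  have key : |Real.log (uval T (ext a) : ℝ) * N / D - Real.log (uval T (ext b) : ℝ) * N / D| < 1 := by
    have ha1 := Nat.floor_le (a := Real.log (uval T (ext a) : ℝ) * N / D)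
      (by have := log_uval_nonneg hT (ext a); positivity)
    have hb1 := Nat.floor_le (a := Real.log (uval T (ext b) : ℝ) * N / D)
      (by have := log_uval_nonneg hT (ext b); positivity)
    have ha2 := Nat.lt_floor_add_one (Real.log (uval T (ext a) : ℝ) * N / D)
    have hb2 := Nat.lt_floor_add_one (Real.log (uval T (ext b) : ℝ) * N / D)
    rw [hfl] at ha1 ha2
    rw [abs_lt]
    constructor <;> linarith
  have key2 : |Real.log (uval T (ext a) : ℝ) - Real.log (uval T (ext b) : ℝ)| ≤ D / (A : ℝ) ^ T.card := by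
    have hNr : ((A : ℝ)) ^ T.card = (N : ℝ) := by rw [hN]; push_cast; rfl
    rw [hNr]
    have hNpos : (0 : ℝ) < N := by exact_mod_cast hN0
    rw [le_div_iff₀ hNpos]
    have : (Real.log (uval T (ext a) : ℝ) * N / D - Real.log (uval T (ext b) : ℝ) * N / D) =
        (Real.log (uval T (ext a) : ℝ) - Real.log (uval T (ext b) : ℝ)) * (N / D) := by ring
    rw [this, abs_mul, abs_of_pos (by positivity : (0 : ℝ) < N / D), mul_div_assoc',
      div_lt_one hD0] at key
    exact key.le
  rcases lt_or_gt_of_ne hne with h | h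
  · refine ⟨ext b, ext a, fun p _ => hext b p, fun p _ => hext a p, h, ?_⟩
    have := (abs_le.mp key2).1
    linarith
  · refine ⟨ext a, ext b, fun p _ => hext a p, fun p _ => hext b p, h, ?_⟩
    exact (le_abs_self _).trans key2

end Pool.Agent.H686R3
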